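import Pool.Agent.Helper16.CE.Top

set_option autoImplicit false

namespace Pool.Agent.Helper78.CE
open MeasureTheory Pool.Agent.Helper16.CE
open scoped ENNReal

theorem rot_comm_rf (α : ℝ) (x : E3) : rot α (rf 2 x) = rf 2 (rot α x) := by
  ext i
  rw [rf_apply]
  fin_cases i
  · show rotFun α (rf 2 x) 0 = rotFun α x 0
    simp only [rotFun_zero', rf_apply]
    simp
  · show rotFun α (rf 2 x) 1 = rotFun α x 1
    simp only [rotFun_one', rf_apply]
    simp
  · show rotFun α (rf 2 x) 2 = - rotFun α x 2
    simp only [rotFun_two', rf_apply]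
    simp

theorem pot_rot (α : ℝ) (V : E3 → ℂ) (hV : Pot V) : Pot (fun x => V (rot α x)) := by
  refine ⟨hV.meas.comp (rot α).continuous.measurable, ?_, ?_, ?_, ?_⟩
  · obtain ⟨C, hC⟩ := hV.bdd
    exact ⟨C, fun x => hC _⟩
  · exact ((rot α).measurePreserving.integrable_comp hV.meas.aestronglyMeasurable).2 hV.int
  · intro x
    show V (rot α (-x)) = V (rot α x)
    rw [map_neg, hV.neg]
  · intro x
    show V (rot α (rf 2 x)) = V (rot α x)
    rw [rot_comm_rf, hV.refl]

theorem Rot_T (α : ℝ) (k : ℂ) (hk : 0 ≤ k.im) (V : E3 → ℂ) (hV : Pot V) (u : S) :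
    Rot α (T k V u) = T k (fun x => V (rot α x)) (Rot α u) := by
  apply ev_ext
  intro x
  rw [Rot_spec, T_spec k hk V hV, T_spec k hk _ (pot_rot α V hV), ← integral_iso (rot α)]
  refine integral_congr_ae (Filter.Eventually.of_forall fun y => ?_)
  simp only
  rw [Rot_spec, ← map_sub, LinearIsometryEquiv.norm_map]

/-- ball integrals are rotation invariant -/
theorem ball_rot (α : ℝ) (f : E3 → ℂ) :
    ∫ y in Metric.ball (0 : E3) 1, f (rot α y) = ∫ y in Metric.ball (0 : E3) 1, f y := by
  rw [← integral_indicator measurableSet_ball, ← integral_indicator measurableSet_ball,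
    ← integral_iso (rot α) ((Metric.ball (0 : E3) 1).indicator fun y => f y)]
  refine integral_congr_ae (Filter.Eventually.of_forall fun y => ?_)
  have h : (rot α y ∈ Metric.ball (0 : E3) 1) ↔ (y ∈ Metric.ball (0 : E3) 1) := by
    simp
  by_cases hy : y ∈ Metric.ball (0 : E3) 1
  · simp only [Set.indicator_of_mem hy, Set.indicator_of_mem (h.2 hy)]
  · simp only [Set.indicator_of_notMem hy, Set.indicator_of_notMem (fun hh => hy (h.1 hh))]

theorem rot_zero (α : ℝ) (x : E3) : rot α x 0 = Real.cos α * x 0 - Real.sin α * x 1 := rfl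
theorem rot_one (α : ℝ) (x : E3) : rot α x 1 = Real.sin α * x 0 + Real.cos α * x 1 := rfl

theorem zp_rot (α : ℝ) (x : E3) : zp (rot α x) = Complex.exp (Complex.I * α) * zp x := by
  unfold zp
  rw [rot_zero, rot_one, mul_comm Complex.I (α : ℂ), Complex.exp_mul_I]
  push_cast
  linear_combination (-(Complex.sin (α : ℂ)) * (x 1 : ℂ)) * Complex.I_sq

theorem zm_rot (α : ℝ) (x : E3) : zm (rot α x) = Complex.exp (- (Complex.I * α)) * zm x := by
  unfold zm
  rw [rot_zero, rot_one, show -(Complex.I * (α : ℂ)) = (((-α : ℝ)) : ℂ) * Complex.I by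
    push_cast; ring, Complex.exp_mul_I]
  push_cast
  rw [Complex.cos_neg, Complex.sin_neg]
  linear_combination (-(Complex.sin (α : ℂ)) * (x 1 : ℂ)) * Complex.I_sq

theorem Q_rot (α : ℝ) (x : E3) : Q (rot α x) = Complex.exp (2 * (Complex.I * α)) * Q x := by
  unfold Q
  rw [LinearIsometryEquiv.norm_map]
  split_ifs with h
  · rw [zp_rot, mul_pow, ← Complex.exp_nat_mul]
    norm_num
  · simp

theorem Rot_neg_left (α : ℝ) (u : S) : Rot (-α) (Rot α u) = u := by
  apply ev_ext
  intro x
  rw [Rot_spec, Rot_spec]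
  congr 1
  exact (rot α).right_inv x

/-- the integral of the kernel against `y_j` over the ball is integrable -/
theorem ker_ball_int (x : E3) (j : Fin 3) :
    IntegrableOn (fun y : E3 => gk 0 ‖x - y‖ * (y j : ℂ)) (Metric.ball (0 : E3) 1) volume := by
  have h0 : (0 : ℝ) ≤ (0 : ℂ).im := by simp
  have key := (ker_int 0 h0 (src j) (src_meas j) 1 (src_le j) (src_int j) x).1
  have h2 : IntegrableOn (fun y : E3 => gk 0 ‖x - y‖ * src j y) (Metric.ball (0 : E3) 1) volume :=
    key.integrableOn
  refine h2.congr_fun ?_ measurableSet_ball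
  intro y hy
  show gk 0 ‖x - y‖ * src j y = gk 0 ‖x - y‖ * (y j : ℂ)
  unfold src
  rw [Set.indicator_of_mem hy]

theorem psi_rot_zero (α : ℝ) (x : E3) : ev (psi 0) (rot α x) =
    Real.cos α * ev (psi 0) x - Real.sin α * ev (psi 1) x := by
  rw [psi_spec 0 (by decide), psi_spec 0 (by decide), psi_spec 1 (by decide),
    ← ball_rot α, ← integral_const_mul, ← integral_const_mul,
    ← integral_sub ((ker_ball_int x 0).const_mul _) ((ker_ball_int x 1).const_mul _)]
  refine integral_congr_ae (Filter.Eventually.of_forall fun y => ?_)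
  simp only
  rw [← map_sub, LinearIsometryEquiv.norm_map, rot_zero]
  push_cast
  ring

theorem psi_rot_one (α : ℝ) (x : E3) : ev (psi 1) (rot α x) =
    Real.sin α * ev (psi 0) x + Real.cos α * ev (psi 1) x := by
  rw [psi_spec 0 (by decide), psi_spec 1 (by decide), psi_spec 1 (by decide),
    ← ball_rot α, ← integral_const_mul, ← integral_const_mul,
    ← integral_add ((ker_ball_int x 0).const_mul _) ((ker_ball_int x 1).const_mul _)]
  refine integral_congr_ae (Filter.Eventually.of_forall fun y => ?_)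
  simp only
  rw [← map_sub, LinearIsometryEquiv.norm_map, rot_one]
  push_cast
  ring

theorem Rot_psiP (α : ℝ) : Rot α psiP = Complex.exp (Complex.I * α) • psiP := by
  apply ev_ext
  intro x
  rw [Rot_spec]
  unfold psiP
  rw [ev_smul, ev_add, ev_add, ev_smul, ev_smul, psi_rot_zero, psi_rot_one,
    mul_comm Complex.I (α : ℂ), Complex.exp_mul_I]
  push_cast
  linear_combination ((Complex.sin (α : ℂ)) * (ev (psi 1) x)) * (-1) * Complex.I_sq

theorem Rot_psiM (α : ℝ) : Rot α psiM = Complex.exp (- (Complex.I * α)) • psiM := by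
  apply ev_ext
  intro x
  rw [Rot_spec]
  unfold psiM
  rw [ev_smul, ev_sub, ev_sub, ev_smul, ev_smul, psi_rot_zero, psi_rot_one,
    show -(Complex.I * (α : ℂ)) = (((-α : ℝ)) : ℂ) * Complex.I by push_cast; ring,
    Complex.exp_mul_I]
  push_cast
  rw [Complex.cos_neg, Complex.sin_neg]
  linear_combination ((Complex.sin (α : ℂ)) * (ev (psi 1) x)) * (-1) * Complex.I_sq

theorem mom_int (j : Fin 3) (u : S) :
    IntegrableOn (fun y : E3 => (y j : ℂ) * ev u y) (Metric.ball (0 : E3) 1) volume :=
  integrableOn_coord j _ (meas_ev u) _ (ev_le u)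

theorem nuP_eq (u : S) : nuP u = 1 / 2 * ∫ y in Metric.ball (0 : E3) 1, zm y * ev u y := by
  unfold nuP
  simp only [ContinuousLinearMap.smul_apply, ContinuousLinearMap.sub_apply, smul_eq_mul]
  rw [mom_spec, mom_spec, ← integral_const_mul, ← integral_sub (mom_int 0 u)
    ((mom_int 1 u).const_mul _)]
  congr 1
  refine integral_congr_ae (Filter.Eventually.of_forall fun y => ?_)
  simp only [zm]
  ring

theorem nuM_eq (u : S) : nuM u = 1 / 2 * ∫ y in Metric.ball (0 : E3) 1, zp y * ev u y := by
  unfold nuM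
  simp only [ContinuousLinearMap.smul_apply, ContinuousLinearMap.add_apply, smul_eq_mul]
  rw [mom_spec, mom_spec, ← integral_const_mul, ← integral_add (mom_int 0 u)
    ((mom_int 1 u).const_mul _)]
  congr 1
  refine integral_congr_ae (Filter.Eventually.of_forall fun y => ?_)
  simp only [zp]
  ring

theorem nuP_Rot (α : ℝ) (u : S) : nuP (Rot α u) = Complex.exp (Complex.I * α) * nuP u := by
  rw [nuP_eq, nuP_eq, ← ball_rot α (fun y => zm y * ev u y), ← mul_assoc,
    mul_comm (Complex.exp (Complex.I * α)) (1 / 2 : ℂ), mul_assoc]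
  congr 1
  have h : Complex.exp (Complex.I * α) *
      ∫ y in Metric.ball (0 : E3) 1, zm (rot α y) * ev u (rot α y) =
      ∫ y in Metric.ball (0 : E3) 1, Complex.exp (Complex.I * α) *
        (zm (rot α y) * ev u (rot α y)) := (integral_const_mul _ _).symm
  rw [h]
  refine integral_congr_ae (Filter.Eventually.of_forall fun y => ?_)
  simp only
  rw [Rot_spec, zm_rot, ← mul_assoc, ← mul_assoc, ← Complex.exp_add]
  simp

theorem nuM_Rot (α : ℝ) (u : S) : nuM (Rot α u) = Complex.exp (- (Complex.I * α)) * nuM u := by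
  rw [nuM_eq, nuM_eq, ← ball_rot α (fun y => zp y * ev u y), ← mul_assoc,
    mul_comm (Complex.exp (- (Complex.I * α))) (1 / 2 : ℂ), mul_assoc]
  congr 1
  have h : Complex.exp (- (Complex.I * α)) *
      ∫ y in Metric.ball (0 : E3) 1, zp (rot α y) * ev u (rot α y) =
      ∫ y in Metric.ball (0 : E3) 1, Complex.exp (- (Complex.I * α)) *
        (zp (rot α y) * ev u (rot α y)) := (integral_const_mul _ _).symm
  rw [h]
  refine integral_congr_ae (Filter.Eventually.of_forall fun y => ?_)
  simp only
  rw [Rot_spec, zp_rot, ← mul_assoc, ← mul_assoc, ← Complex.exp_add]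
  simp

theorem P_eq : P = nuP.smulRight psiP + nuM.smulRight psiM := by
  ext1 u
  unfold P nuP nuM psiP psiM
  simp only [ContinuousLinearMap.add_apply, ContinuousLinearMap.smulRight_apply,
    ContinuousLinearMap.smul_apply, ContinuousLinearMap.sub_apply, smul_eq_mul]
  apply ev_ext
  intro x
  simp only [ev_add, ev_smul, ev_sub]
  linear_combination (mom 1 u * ev (psi 1) x) * Complex.I_sq

end Pool.Agent.Helper78.CE
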