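import Pool.Agent.Helper16.CE.Defs

set_option autoImplicit false

namespace Pool.Agent.Helper78.CE
open MeasureTheory Pool.Agent.Helper16.CE
open scoped ENNReal

/-! ## Part K2: scalar inequalities for the Green function -/

theorem hasDerivAt_exp_r (w : ℂ) (r : ℝ) :
    HasDerivAt (fun r : ℝ => Complex.exp (Complex.I * w * r))
      (Complex.I * w * Complex.exp (Complex.I * w * r)) r := by
  have h1 : HasDerivAt (fun r : ℝ => Complex.I * w * (r : ℂ)) (Complex.I * w) r := by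
    have := (Complex.ofRealCLM.hasDerivAt (x := r)).const_mul (Complex.I * w)
    simpa using this
  exact h1.cexp.congr_deriv (by ring)

theorem norm_exp_r (w : ℂ) (hw : 0 ≤ w.im) (r : ℝ) (hr : 0 ≤ r) :
    ‖Complex.exp (Complex.I * w * r)‖ ≤ 1 := by
  rw [Complex.norm_exp]
  have : (Complex.I * w * r).re = -(w.im * r) := by simp
  rw [this, Real.exp_le_one_iff]
  have := mul_nonneg hw hr
  linarith

theorem exp_lip (w : ℂ) (hw : 0 ≤ w.im) (a b : ℝ) (ha : 0 ≤ a) (hb : 0 ≤ b) :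
    ‖Complex.exp (Complex.I * w * a) - Complex.exp (Complex.I * w * b)‖ ≤ ‖w‖ * |a - b| := by
  have h := (convex_Ici (0 : ℝ)).norm_image_sub_le_of_norm_hasDerivWithin_le
    (f := fun r : ℝ => Complex.exp (Complex.I * w * r))
    (f' := fun r : ℝ => Complex.I * w * Complex.exp (Complex.I * w * r)) (C := ‖w‖)
    (fun r _ => (hasDerivAt_exp_r w r).hasDerivWithinAt)
    (fun r hr => by
      rw [norm_mul, norm_mul, Complex.norm_I, one_mul]
      exact mul_le_of_le_one_right (norm_nonneg _) (norm_exp_r w hw r hr))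
    (show b ∈ Set.Ici (0 : ℝ) from hb) (show a ∈ Set.Ici (0 : ℝ) from ha)
  simpa [Real.norm_eq_abs] using h

theorem exp_int (k : ℂ) (r : ℝ) (hr : 0 < r) :
    (Complex.exp (Complex.I * k * r) - 1) / (r : ℂ) =
      ∫ s in (0 : ℝ)..1, Complex.I * k * Complex.exp (Complex.I * (k * s) * r) := by
  have hr' : (r : ℂ) ≠ 0 := by exact_mod_cast hr.ne'
  have h1 : ∀ s ∈ Set.uIcc (0 : ℝ) 1, HasDerivAt
      (fun s : ℝ => Complex.exp (Complex.I * (k * s) * r) / (r : ℂ))
      (Complex.I * k * Complex.exp (Complex.I * (k * s) * r)) s := by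
    intro s _
    have h2 : HasDerivAt (fun s : ℝ => Complex.I * (k * (s : ℂ)) * r) (Complex.I * k * r) s := by
      have := (Complex.ofRealCLM.hasDerivAt (x := s)).const_mul (Complex.I * k * r)
      have e : (fun s : ℝ => Complex.I * (k * (s : ℂ)) * r) =
          fun s : ℝ => Complex.I * k * r * (Complex.ofRealCLM s) := by
        funext s
        simp only [Complex.ofRealCLM_apply]
        ring
      rw [e]
      simpa using this
    have h3 := h2.cexp.div_const (r : ℂ)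
    have e : Complex.exp (Complex.I * (k * s) * r) * (Complex.I * k * r) / (r : ℂ) =
        Complex.I * k * Complex.exp (Complex.I * (k * s) * r) := by
      field_simp
    rw [e] at h3
    exact h3
  rw [intervalIntegral.integral_eq_sub_of_hasDerivAt h1 (Continuous.intervalIntegrable
    (by fun_prop) _ _)]
  simp
  ring

theorem gk_sub_zero (k : ℂ) (hk : 0 ≤ k.im) (a b : ℝ) (ha : 0 < a) (hb : 0 < b) :
    ‖(gk k a - gk 0 a) - (gk k b - gk 0 b)‖ ≤ ‖k‖ ^ 2 / (8 * Real.pi) * |a - b| := by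
  have e : ∀ r : ℝ, gk k r - gk 0 r =
      1 / (4 * Real.pi) * ((Complex.exp (Complex.I * k * r) - 1) / (r : ℂ)) := by
    intro r
    unfold gk
    push_cast
    simp only [mul_zero, zero_mul, Complex.exp_zero]
    rw [← sub_div, div_mul_div_comm, one_mul]
  rw [e, e, exp_int k a ha, exp_int k b hb, ← mul_sub, ← intervalIntegral.integral_sub
    (Continuous.intervalIntegrable (by fun_prop) _ _)
    (Continuous.intervalIntegrable (by fun_prop) _ _), norm_mul]
  have h1 : ‖∫ s in (0 : ℝ)..1, (Complex.I * k * Complex.exp (Complex.I * (k * s) * a) -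
      Complex.I * k * Complex.exp (Complex.I * (k * s) * b))‖ ≤
      ∫ s in (0 : ℝ)..1, ‖k‖ ^ 2 * |a - b| * s := by
    apply intervalIntegral.norm_integral_le_of_norm_le zero_le_one
    · refine Filter.Eventually.of_forall fun s hs => ?_
      have hs0 : 0 ≤ s := hs.1.le
      rw [← mul_sub, norm_mul, norm_mul, Complex.norm_I, one_mul]
      have h2 := exp_lip (k * s) (by simp; positivity) a b ha.le hb.le
      rw [norm_mul, Complex.norm_real, Real.norm_of_nonneg hs0] at h2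
      calc ‖k‖ * ‖Complex.exp (Complex.I * (k * s) * a) - Complex.exp (Complex.I * (k * s) * b)‖
          ≤ ‖k‖ * (‖k‖ * s * |a - b|) := mul_le_mul_of_nonneg_left h2 (norm_nonneg k)
        _ = ‖k‖ ^ 2 * |a - b| * s := by ring
    · exact Continuous.intervalIntegrable (by fun_prop) _ _
  rw [intervalIntegral.integral_const_mul, integral_id] at h1
  have h4 : ‖(1 / (4 * Real.pi) : ℂ)‖ = 1 / (4 * Real.pi) := by
    rw [norm_div, norm_one, norm_mul, Complex.norm_real, Real.norm_of_nonneg Real.pi_pos.le]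
    norm_num
  rw [h4]
  have hpi := Real.pi_pos
  calc 1 / (4 * Real.pi) * ‖∫ s in (0 : ℝ)..1, (Complex.I * k *
        Complex.exp (Complex.I * (k * s) * a) -
        Complex.I * k * Complex.exp (Complex.I * (k * s) * b))‖
      ≤ 1 / (4 * Real.pi) * (‖k‖ ^ 2 * |a - b| * ((1 ^ 2 - 0 ^ 2) / 2)) :=
        mul_le_mul_of_nonneg_left h1 (by positivity)
    _ = ‖k‖ ^ 2 / (8 * Real.pi) * |a - b| := by field_simp; ring

theorem gk_hasDeriv (k : ℂ) (r : ℝ) (hr : 0 < r) :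
    HasDerivAt (fun r : ℝ => gk k r) (-Dk k r) r := by
  have hr' : (r : ℂ) ≠ 0 := by exact_mod_cast hr.ne'
  have hpi : (Real.pi : ℂ) ≠ 0 := by exact_mod_cast Real.pi_ne_zero
  have h1 := hasDerivAt_exp_r k r
  have h2 : HasDerivAt (fun r : ℝ => ((4 * Real.pi * r : ℝ) : ℂ)) ((4 * Real.pi : ℝ) : ℂ) r := by
    have := (hasDerivAt_id r).const_mul (4 * Real.pi)
    have h3 := this.ofReal_comp
    simpa using h3
  have h3 := h1.div h2 (by
    push_cast
    simp [hr', hpi])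
  unfold gk
  refine h3.congr_deriv ?_
  unfold Dk
  push_cast
  field_simp
  ring

theorem Dk_bound (k : ℂ) (hk : 0 ≤ k.im) (m r : ℝ) (hm : 0 < m) (hr : m ≤ r) :
    ‖Dk k r‖ ≤ (‖k‖ / m + 1 / m ^ 2) / (4 * Real.pi) := by
  have hpi := Real.pi_pos
  have hr0 : 0 < r := hm.trans_le hr
  unfold Dk
  rw [norm_div, norm_mul, Complex.norm_real, Real.norm_of_nonneg (by positivity)]
  refine div_le_div_of_nonneg_right ?_ (by positivity)
  have h1 : ‖1 / (r : ℂ) ^ 2 - Complex.I * k / r‖ ≤ ‖k‖ / m + 1 / m ^ 2 := by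
    refine (norm_sub_le _ _).trans ?_
    rw [norm_div, norm_div, norm_pow, norm_mul, norm_one, Complex.norm_I, one_mul,
      Complex.norm_real, Real.norm_of_nonneg hr0.le]
    have h2 : 1 / r ^ 2 ≤ 1 / m ^ 2 :=
      one_div_le_one_div_of_le (by positivity) (pow_le_pow_left₀ hm.le hr 2)
    have h3 : ‖k‖ / r ≤ ‖k‖ / m := div_le_div_of_nonneg_left (norm_nonneg k) hm hr
    linarith
  calc ‖1 / (r : ℂ) ^ 2 - Complex.I * k / r‖ * ‖Complex.exp (Complex.I * k * r)‖
      ≤ (‖k‖ / m + 1 / m ^ 2) * 1 :=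
        mul_le_mul h1 (norm_exp_r k hk r hr0.le) (norm_nonneg _) (by positivity)
    _ = _ := mul_one _

theorem gk_sub (k : ℂ) (hk : 0 ≤ k.im) (m a b : ℝ) (hm : 0 < m) (ha : m ≤ a) (hb : m ≤ b) :
    ‖gk k a - gk k b‖ ≤ (‖k‖ / m + 1 / m ^ 2) / (4 * Real.pi) * |a - b| := by
  have h := (convex_Ici m).norm_image_sub_le_of_norm_hasDerivWithin_le
    (f := fun r : ℝ => gk k r) (f' := fun r : ℝ => -Dk k r)
    (C := (‖k‖ / m + 1 / m ^ 2) / (4 * Real.pi))
    (fun r hr => (gk_hasDeriv k r (hm.trans_le hr)).hasDerivWithinAt)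
    (fun r hr => by rw [norm_neg]; exact Dk_bound k hk m r hm hr)
    (show b ∈ Set.Ici m from hb) (show a ∈ Set.Ici m from ha)
  simpa [Real.norm_eq_abs] using h

/-- the derivative of `Dk` -/
noncomputable def Ddk (k : ℂ) (r : ℝ) : ℂ :=
  (-2 / (r : ℂ) ^ 3 + 2 * (Complex.I * k) / (r : ℂ) ^ 2 - (Complex.I * k) ^ 2 / r) *
    Complex.exp (Complex.I * k * r) / (4 * Real.pi : ℝ)

theorem Dk_hasDeriv (k : ℂ) (r : ℝ) (hr : 0 < r) :
    HasDerivAt (fun r : ℝ => Dk k r) (Ddk k r) r := by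
  have hr' : (r : ℂ) ≠ 0 := by exact_mod_cast hr.ne'
  have hpi : (Real.pi : ℂ) ≠ 0 := by exact_mod_cast Real.pi_ne_zero
  have h0 : HasDerivAt (fun r : ℝ => (r : ℂ)) 1 r := by
    have := (hasDerivAt_id r).ofReal_comp
    simpa using this
  have h1 := hasDerivAt_exp_r k r
  have h2 := (h0.pow 2).fun_inv (pow_ne_zero 2 hr')
  have h3 := (h0.fun_inv hr').const_mul (Complex.I * k)
  have h4 := ((h2.sub h3).mul h1).div_const ((4 * Real.pi : ℝ) : ℂ)
  have e : (fun r : ℝ => Dk k r) = fun r : ℝ => ((((r : ℂ) ^ 2)⁻¹ - Complex.I * k * (r : ℂ)⁻¹) *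
      Complex.exp (Complex.I * k * r)) / ((4 * Real.pi : ℝ) : ℂ) := by
    funext r
    unfold Dk
    rw [one_div, div_eq_mul_inv (Complex.I * k)]
  rw [e]
  refine h4.congr_deriv ?_
  unfold Ddk
  simp only [Pi.pow_apply, Pi.sub_apply]
  push_cast
  have e2 : (r : ℂ) ^ (2 - 1) = r := by norm_num
  rw [e2, ← mul_right_inj' (show (4 * Real.pi * r ^ 4 : ℂ) ≠ 0 by simp [hr', hpi])]
  field_simp
  ring

theorem Ddk_bound (k : ℂ) (hk : 0 ≤ k.im) (m r : ℝ) (hm : 0 < m) (hr : m ≤ r) :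
    ‖Ddk k r‖ ≤ (‖k‖ ^ 2 / m + 2 * ‖k‖ / m ^ 2 + 2 / m ^ 3) / (4 * Real.pi) := by
  have hpi := Real.pi_pos
  have hr0 : 0 < r := hm.trans_le hr
  unfold Ddk
  rw [norm_div, norm_mul, Complex.norm_real, Real.norm_of_nonneg (by positivity)]
  refine div_le_div_of_nonneg_right ?_ (by positivity)
  have h1 : ‖-2 / (r : ℂ) ^ 3 + 2 * (Complex.I * k) / (r : ℂ) ^ 2 - (Complex.I * k) ^ 2 / r‖ ≤
      ‖k‖ ^ 2 / m + 2 * ‖k‖ / m ^ 2 + 2 / m ^ 3 := by
    refine (norm_sub_le _ _).trans ?_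
    refine (add_le_add_left (norm_add_le _ _) _).trans ?_
    rw [norm_div, norm_div, norm_div, norm_pow, norm_pow, norm_pow, norm_mul, norm_mul, norm_neg,
      Complex.norm_I, one_mul, Complex.norm_real, Real.norm_of_nonneg hr0.le]
    have n2 : ‖(2 : ℂ)‖ = 2 := by simp
    rw [n2]
    have h2 : 2 * ‖k‖ / r ^ 2 ≤ 2 * ‖k‖ / m ^ 2 :=
      div_le_div_of_nonneg_left (by positivity) (by positivity) (pow_le_pow_left₀ hm.le hr 2)
    have h3 : ‖k‖ ^ 2 / r ≤ ‖k‖ ^ 2 / m := div_le_div_of_nonneg_left (by positivity) hm hr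
    have h4 : 2 / r ^ 3 ≤ 2 / m ^ 3 :=
      div_le_div_of_nonneg_left (by positivity) (by positivity) (pow_le_pow_left₀ hm.le hr 3)
    linarith
  calc ‖-2 / (r : ℂ) ^ 3 + 2 * (Complex.I * k) / (r : ℂ) ^ 2 - (Complex.I * k) ^ 2 / r‖ *
        ‖Complex.exp (Complex.I * k * r)‖
      ≤ (‖k‖ ^ 2 / m + 2 * ‖k‖ / m ^ 2 + 2 / m ^ 3) * 1 :=
        mul_le_mul h1 (norm_exp_r k hk r hr0.le) (norm_nonneg _) (by positivity)
    _ = _ := mul_one _

theorem Dk_sub (k : ℂ) (hk : 0 ≤ k.im) (m a b : ℝ) (hm : 0 < m) (ha : m ≤ a) (hb : m ≤ b) :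
    ‖Dk k a - Dk k b‖ ≤
      (‖k‖ ^ 2 / m + 2 * ‖k‖ / m ^ 2 + 2 / m ^ 3) / (4 * Real.pi) * |a - b| := by
  have h := (convex_Ici m).norm_image_sub_le_of_norm_hasDerivWithin_le
    (f := fun r : ℝ => Dk k r) (f' := fun r : ℝ => Ddk k r)
    (C := (‖k‖ ^ 2 / m + 2 * ‖k‖ / m ^ 2 + 2 / m ^ 3) / (4 * Real.pi))
    (fun r hr => (Dk_hasDeriv k r (hm.trans_le hr)).hasDerivWithinAt)
    (fun r hr => Ddk_bound k hk m r hm hr)
    (show b ∈ Set.Ici m from hb) (show a ∈ Set.Ici m from ha)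
  simpa [Real.norm_eq_abs] using h

/-- the sum and the difference of the two distances -/
theorem dist_facts (z y : E3) (hz : 2 ≤ ‖z‖) (hy : ‖y‖ ≤ 1) :
    ‖z‖ / 2 ≤ ‖z - y‖ ∧ ‖z‖ / 2 ≤ ‖z + y‖ ∧ |‖z - y‖ - ‖z‖| ≤ 1 ∧ |‖z + y‖ - ‖z‖| ≤ 1 ∧
    |‖z - y‖ - ‖z + y‖| ≤ 2 ∧
    |(‖z - y‖ - ‖z + y‖) + 2 * (inner ℝ z y / ‖z‖)| ≤ 2 / ‖z‖ := by
  have h1 : |‖z - y‖ - ‖z‖| ≤ 1 := by
    have := abs_norm_sub_norm_le (z - y) z
    rw [sub_sub_cancel_left, norm_neg] at this
    exact this.trans hy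
  have h2 : |‖z + y‖ - ‖z‖| ≤ 1 := by
    have := abs_norm_sub_norm_le (z + y) z
    rw [add_sub_cancel_left] at this
    exact this.trans hy
  have h1' := abs_le.1 h1
  have h2' := abs_le.1 h2
  have hz0 : 0 < ‖z‖ := by linarith
  have hsum : 2 * ‖z‖ ≤ ‖z - y‖ + ‖z + y‖ := by
    have := norm_add_le (z - y) (z + y)
    have e : (z - y) + (z + y) = (2 : ℝ) • z := by
      rw [two_smul]; abel
    rw [e, norm_smul, Real.norm_of_nonneg (by norm_num : (0 : ℝ) ≤ 2)] at this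
    exact this
  refine ⟨by linarith, by linarith, h1, h2, abs_le.2 ⟨by linarith, by linarith⟩, ?_⟩
  have hsq1 := norm_sub_sq_real z y
  have hsq2 := norm_add_sq_real z y
  set p := ‖z - y‖
  set q := ‖z + y‖
  set r := ‖z‖
  set i := inner ℝ z y
  have hi : |i| ≤ r := by
    have := abs_real_inner_le_norm z y
    calc |i| ≤ ‖z‖ * ‖y‖ := this
      _ ≤ ‖z‖ * 1 := mul_le_mul_of_nonneg_left hy (norm_nonneg _)
      _ = r := mul_one _
  have hpq : 0 < p + q := by linarith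
  have hdiff : (p - q) * (p + q) = -4 * i := by
    nlinarith
  have e : (p - q) + 2 * (i / r) = i * (2 * (p + q - 2 * r)) / (r * (p + q)) := by
    have h3 : p - q = -4 * i / (p + q) := by
      rw [eq_div_iff hpq.ne']
      exact hdiff
    rw [h3]
    field_simp
    ring
  rw [e, abs_div, abs_mul, abs_of_pos (mul_pos hz0 hpq)]
  have h4 : |2 * (p + q - 2 * r)| ≤ 4 := by
    rw [abs_of_nonneg (by linarith)]
    linarith
  rw [div_le_div_iff₀ (mul_pos hz0 hpq) hz0]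
  calc |i| * |2 * (p + q - 2 * r)| * r ≤ r * 4 * r := by
        refine mul_le_mul_of_nonneg_right ?_ hz0.le
        exact mul_le_mul hi h4 (abs_nonneg _) hz0.le
    _ ≤ 2 * (r * (p + q)) := by nlinarith

theorem gk_dipole : ∃ C : ℝ, 0 < C ∧ ∀ (k : ℂ) (z y : E3), 0 ≤ k.im → ‖k‖ ≤ 1 → 2 ≤ ‖z‖ →
    ‖y‖ ≤ 1 →
    ‖(gk k ‖z - y‖ - gk k ‖z + y‖) - 2 * Dk k ‖z‖ * ((inner ℝ z y / ‖z‖ : ℝ) : ℂ)‖ ≤
      C * (‖k‖ + 1 / ‖z‖) * (‖k‖ / ‖z‖ + 1 / ‖z‖ ^ 2) := by
  refine ⟨40, by norm_num, fun k z y hk hk1 hz hy => ?_⟩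
  obtain ⟨f1, f2, f3, f4, f5, f6⟩ := dist_facts z y hz hy
  have hpi := Real.pi_pos
  have hpi3 := Real.pi_gt_three
  have hz0 : 0 < ‖z‖ := by linarith
  have hm : 0 < ‖z‖ / 2 := by linarith
  set r := ‖z‖ with hr
  set p := ‖z - y‖ with hp
  set q := ‖z + y‖ with hq
  set B : ℝ := (‖k‖ ^ 2 / (r / 2) + 2 * ‖k‖ / (r / 2) ^ 2 + 2 / (r / 2) ^ 3) / (4 * Real.pi)
    with hB
  have hB0 : 0 ≤ B := by positivity
  -- the second order remainder
  have h1 : ‖(gk k p + Dk k r * p) - (gk k q + Dk k r * q)‖ ≤ (B * 1) * |p - q| := by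
    have hsub : ∀ s ∈ Set.Icc (r - 1) (r + 1), r / 2 ≤ s := fun s hs => by
      have := hs.1
      linarith
    have hd : ∀ s ∈ Set.Icc (r - 1) (r + 1), HasDerivWithinAt
        (fun s : ℝ => gk k s + Dk k r * (s : ℂ)) (-Dk k s + Dk k r) (Set.Icc (r - 1) (r + 1)) s := by
      intro s hs
      have h0 : HasDerivAt (fun r : ℝ => (r : ℂ)) 1 s := by
        have := (hasDerivAt_id s).ofReal_comp
        simpa using this
      have h2 := (gk_hasDeriv k s (hm.trans_le (hsub s hs))).add (h0.const_mul (Dk k r))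
      rw [mul_one] at h2
      exact h2.hasDerivWithinAt
    have h := (convex_Icc (r - 1) (r + 1)).norm_image_sub_le_of_norm_hasDerivWithin_le
      (C := B * 1) hd
      (fun s hs => by
        have h3 := Dk_sub k hk (r / 2) s r hm (hsub s hs) (by linarith)
        have h4 : |s - r| ≤ 1 := abs_le.2 ⟨by linarith [hs.1], by linarith [hs.2]⟩
        rw [neg_add_eq_sub, norm_sub_rev]
        exact h3.trans (mul_le_mul_of_nonneg_left h4 hB0))
      (show q ∈ Set.Icc (r - 1) (r + 1) from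
        ⟨by linarith [(abs_le.1 f4).1], by linarith [(abs_le.1 f4).2]⟩)
      (show p ∈ Set.Icc (r - 1) (r + 1) from
        ⟨by linarith [(abs_le.1 f3).1], by linarith [(abs_le.1 f3).2]⟩)
    simpa [Real.norm_eq_abs] using h
  have h1' : ‖(gk k p + Dk k r * p) - (gk k q + Dk k r * q)‖ ≤ B * 2 := by
    refine h1.trans ?_
    rw [mul_one]
    exact mul_le_mul_of_nonneg_left f5 hB0
  -- the first order term
  have h2 : ‖Dk k r * (((p - q) + 2 * (inner ℝ z y / r) : ℝ) : ℂ)‖ ≤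
      (‖k‖ / r + 1 / r ^ 2) / (4 * Real.pi) * (2 / r) := by
    rw [norm_mul, Complex.norm_real, Real.norm_eq_abs]
    exact mul_le_mul (Dk_bound k hk r r hz0 le_rfl) f6 (abs_nonneg _) (by positivity)
  have e : (gk k p - gk k q) - 2 * Dk k r * ((inner ℝ z y / r : ℝ) : ℂ) =
      ((gk k p + Dk k r * p) - (gk k q + Dk k r * q)) -
        Dk k r * (((p - q) + 2 * (inner ℝ z y / r) : ℝ) : ℂ) := by
    push_cast
    ring
  rw [e]
  refine (norm_sub_le _ _).trans ?_
  have hfin : B * 2 + (‖k‖ / r + 1 / r ^ 2) / (4 * Real.pi) * (2 / r) ≤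
      40 * (‖k‖ + 1 / r) * (‖k‖ / r + 1 / r ^ 2) := by
    have hk0 := norm_nonneg k
    set x := ‖k‖ with hx
    set u := 1 / r with hu
    have hu0 : 0 < u := by positivity
    have e1 : B * 2 = (4 * (x ^ 2 * u) + 16 * (x * u ^ 2) + 32 * u ^ 3) / (4 * Real.pi) := by
      rw [hB, hu]
      field_simp
      ring
    have e2 : (x / r + 1 / r ^ 2) / (4 * Real.pi) * (2 / r) =
        (2 * (x * u ^ 2) + 2 * u ^ 3) / (4 * Real.pi) := by
      rw [hu]
      field_simp
    have e3 : 40 * (x + u) * (x / r + 1 / r ^ 2) =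
        40 * (x ^ 2 * u + 2 * (x * u ^ 2) + u ^ 3) := by
      rw [hu]
      field_simp
      ring
    rw [e1, e2, e3, ← add_div, div_le_iff₀ (by positivity)]
    have a1 : 0 ≤ x ^ 2 * u := by positivity
    have a2 : 0 ≤ x * u ^ 2 := by positivity
    have a3 : 0 ≤ u ^ 3 := by positivity
    have a4 : 0 ≤ x ^ 2 * u + 2 * (x * u ^ 2) + u ^ 3 := by positivity
    nlinarith
  linarith

theorem exp_real_taylor (x : ℝ) (hx : 0 ≤ x) :
    Real.exp x - 1 - x ≤ x ^ 2 / 2 * Real.exp x := by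
  have hmono : MonotoneOn (fun x : ℝ => x ^ 2 / 2 * Real.exp x - (Real.exp x - 1 - x))
      (Set.Ici 0) := by
    apply monotoneOn_of_deriv_nonneg (convex_Ici 0)
    · fun_prop
    · fun_prop
    · intro t ht
      rw [interior_Ici] at ht
      have ht0 : (0 : ℝ) < t := ht
      have hd : HasDerivAt (fun x : ℝ => x ^ 2 / 2 * Real.exp x - (Real.exp x - 1 - x))
          ((2 * t ^ 1 * 1 / 2 * Real.exp t + t ^ 2 / 2 * Real.exp t) - (Real.exp t - 0 - 1)) t := by
        have h1 := (((hasDerivAt_id t).pow 2).div_const 2).mul (Real.hasDerivAt_exp t)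
        have h2 := ((Real.hasDerivAt_exp t).sub (hasDerivAt_const t (1 : ℝ))).sub
          (hasDerivAt_id t)
        exact (h1.sub h2).congr_deriv (by simp)
      rw [hd.deriv]
      have h3 : 1 - t ≤ Real.exp (-t) := by
        have := Real.add_one_le_exp (-t)
        linarith
      have h4 : (1 - t) * Real.exp t ≤ 1 := by
        calc (1 - t) * Real.exp t ≤ Real.exp (-t) * Real.exp t :=
              mul_le_mul_of_nonneg_right h3 (Real.exp_pos t).le
          _ = 1 := by rw [← Real.exp_add]; simp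
      have h5 : 0 ≤ t ^ 2 / 2 * Real.exp t := by positivity
      nlinarith
  have := hmono (Set.mem_Ici.2 le_rfl) (Set.mem_Ici.2 hx) hx
  simp at this
  linarith

theorem exp_taylor (w : ℂ) : ‖Complex.exp w - 1 - w‖ ≤ ‖w‖ ^ 2 / 2 * Real.exp ‖w‖ := by
  have h := Complex.norm_exp_sub_sum_le_exp_norm_sub_sum w 2
  simp only [Finset.sum_range_succ, Finset.sum_range_zero, pow_zero, Nat.factorial_zero,
    Nat.cast_one, div_one, zero_add, pow_one, Nat.factorial_one] at h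
  have e : Complex.exp w - 1 - w = Complex.exp w - (1 + w) := by ring
  rw [e]
  refine h.trans ?_
  have := exp_real_taylor ‖w‖ (norm_nonneg w)
  linarith

theorem gk_deriv (k h : ℂ) (hk : 0 < k.im) (hh : ‖h‖ ≤ k.im / 2) (r : ℝ) (hr : 0 < r) :
    ‖gk (k + h) r - gk k r - h * (Complex.I * Complex.exp (Complex.I * k * r) /
      (4 * Real.pi : ℝ))‖ ≤ ‖h‖ ^ 2 / (8 * Real.pi * k.im) := by
  have hr' : (r : ℂ) ≠ 0 := by exact_mod_cast hr.ne'
  have hpi := Real.pi_pos
  have hpi' : (Real.pi : ℂ) ≠ 0 := by exact_mod_cast Real.pi_ne_zero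
  have e : gk (k + h) r - gk k r - h * (Complex.I * Complex.exp (Complex.I * k * r) /
      (4 * Real.pi : ℝ)) = Complex.exp (Complex.I * k * r) / ((4 * Real.pi * r : ℝ) : ℂ) *
        (Complex.exp (Complex.I * h * r) - 1 - Complex.I * h * r) := by
    unfold gk
    have e1 : Complex.exp (Complex.I * (k + h) * r) =
        Complex.exp (Complex.I * k * r) * Complex.exp (Complex.I * h * r) := by
      rw [← Complex.exp_add]
      ring_nf
    rw [e1]
    push_cast
    field_simp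
  rw [e, norm_mul, norm_div, Complex.norm_real, Real.norm_of_nonneg (by positivity)]
  have h1 : ‖Complex.exp (Complex.I * k * r)‖ = Real.exp (-(k.im * r)) := by
    rw [Complex.norm_exp]
    congr 1
    simp
  have h2 := exp_taylor (Complex.I * h * r)
  have h3 : ‖Complex.I * h * r‖ = ‖h‖ * r := by
    rw [norm_mul, norm_mul, Complex.norm_I, one_mul, Complex.norm_real, Real.norm_of_nonneg hr.le]
  rw [h3] at h2
  rw [h1]
  -- `r e^{-a r} ≤ 1 / (2 a)` with `a = Im k / 2`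
  have h4 : r * Real.exp (-(k.im / 2 * r)) ≤ 1 / k.im := by
    have h5 := Real.add_one_le_exp (k.im / 2 * r - 1)
    have h6 : Real.exp (k.im / 2 * r - 1) ≤ Real.exp (k.im / 2 * r) / 2 := by
      rw [Real.exp_sub]
      apply div_le_div_of_nonneg_left (Real.exp_pos _).le (by norm_num)
      have := Real.add_one_le_exp (1 : ℝ)
      linarith
    have h7 : k.im * r ≤ Real.exp (k.im / 2 * r) := by linarith
    rw [le_div_iff₀ hk, Real.exp_neg]
    calc r * (Real.exp (k.im / 2 * r))⁻¹ * k.im = (k.im * r) * (Real.exp (k.im / 2 * r))⁻¹ := by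
          ring
      _ ≤ Real.exp (k.im / 2 * r) * (Real.exp (k.im / 2 * r))⁻¹ :=
          mul_le_mul_of_nonneg_right h7 (by positivity)
      _ = 1 := mul_inv_cancel₀ (Real.exp_pos _).ne'
  have h8 : Real.exp (-(k.im * r)) * Real.exp (‖h‖ * r) ≤ Real.exp (-(k.im / 2 * r)) := by
    rw [← Real.exp_add]
    apply Real.exp_le_exp.2
    nlinarith
  calc Real.exp (-(k.im * r)) / (4 * Real.pi * r) *
        ‖Complex.exp (Complex.I * h * r) - 1 - Complex.I * h * r‖
      ≤ Real.exp (-(k.im * r)) / (4 * Real.pi * r) *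
        ((‖h‖ * r) ^ 2 / 2 * Real.exp (‖h‖ * r)) := mul_le_mul_of_nonneg_left h2 (by positivity)
    _ = ‖h‖ ^ 2 / (8 * Real.pi) * (r * (Real.exp (-(k.im * r)) * Real.exp (‖h‖ * r))) := by
        field_simp
        ring
    _ ≤ ‖h‖ ^ 2 / (8 * Real.pi) * (r * Real.exp (-(k.im / 2 * r))) := by
        refine mul_le_mul_of_nonneg_left ?_ (by positivity)
        exact mul_le_mul_of_nonneg_left h8 hr.le
    _ ≤ ‖h‖ ^ 2 / (8 * Real.pi) * (1 / k.im) := mul_le_mul_of_nonneg_left h4 (by positivity)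
    _ = ‖h‖ ^ 2 / (8 * Real.pi * k.im) := by field_simp

end Pool.Agent.Helper78.CE
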