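import Pool.Agent.Helper16.CE.Top
import Pool.Agent.Helper78.CE.K2

set_option autoImplicit false

namespace Pool.Agent.Helper78.CE
open MeasureTheory Pool.Agent.Helper16.CE
open scoped ENNReal

theorem T_intB {V : E3 → ℂ} (hV : Pot V) (k : ℂ) (hk : 0 ≤ k.im) (u : S) (x : E3) :
    Integrable (fun y => gk k ‖x - y‖ * (V y * ev u y)) volume := by
  obtain ⟨M, hM⟩ := hV.bdd
  exact (ker_int k hk (fun y => V y * ev u y) (hV.mul_ev u).1 (‖u‖ * M)
      (fun y => ((hV.mul_ev u).2.2 y).trans (by gcongr; exact hM y)) (hV.mul_ev u).2.1 x).1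

/-- symmetrised form of `T` -/
theorem T_symm (k : ℂ) (hk : 0 ≤ k.im) (V : E3 → ℂ) (hV : Pot V) (u : S) (x : E3) :
    ev (T k V u) x = ∫ y, (1 / 2 : ℂ) * ((gk k ‖x - y‖ - gk k ‖x + y‖) * (V y * ev u y)) := by
  have h1 := T_spec k hk V hV u x
  have hi := T_intB hV k hk u x
  have hi2 : Integrable (fun y => gk k ‖x + y‖ * (V y * ev u y)) volume := by
    have := (hi.comp_neg).neg
    refine this.congr (Filter.Eventually.of_forall fun y => ?_)
    simp only [Pi.neg_apply]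
    rw [hV.neg, (cls_ev u).neg, sub_neg_eq_add]
    ring
  have h2 : ∫ y, gk k ‖x - y‖ * (V y * ev u y) = - ∫ y, gk k ‖x + y‖ * (V y * ev u y) := by
    rw [← integral_neg_E3, ← integral_neg]
    refine integral_congr_ae (Filter.Eventually.of_forall fun y => ?_)
    simp only
    rw [hV.neg, (cls_ev u).neg, sub_neg_eq_add]
    ring
  rw [integral_const_mul]
  have h3 : ∫ y, (gk k ‖x - y‖ - gk k ‖x + y‖) * (V y * ev u y) =
      (∫ y, gk k ‖x - y‖ * (V y * ev u y)) - ∫ y, gk k ‖x + y‖ * (V y * ev u y) := by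
    rw [← integral_sub hi hi2]
    refine integral_congr_ae (Filter.Eventually.of_forall fun y => ?_)
    simp only
    ring
  rw [h3, h1]
  linear_combination (1 / 2 : ℂ) * h2

theorem T_outer_in (k : ℂ) (hk : 0 ≤ k.im) (R0 : ℝ) (hR0 : 2 ≤ R0) (W : E3 → ℂ) (hW : Pot W)
    (hW1 : ∀ x, ‖x‖ < R0 → W x = 0) (u : S) (p : ℝ) (hp : ∀ x, R0 ≤ ‖x‖ → ‖ev u x‖ ≤ p)
    (x : E3) (hx : ‖x‖ < 1) :
    ‖ev (T k W u) x‖ ≤ (‖k‖ / R0 + 1 / R0 ^ 2) * (∫ y, ‖W y‖) * p := by
  have hR : 0 < R0 := by linarith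
  rw [T_symm k hk W hW]
  have hle : ∀ y, ‖(1 / 2 : ℂ) * ((gk k ‖x - y‖ - gk k ‖x + y‖) * (W y * ev u y))‖ ≤
      (‖k‖ / R0 + 1 / R0 ^ 2) * p * ‖W y‖ := by
    intro y
    by_cases hy : ‖y‖ < R0
    · rw [hW1 y hy]; simp
    · push Not at hy
      have hm : 0 < R0 / 2 := by positivity
      have n1 : ‖y‖ ≤ ‖x - y‖ + ‖x‖ := by
        calc ‖y‖ = ‖-(x - y) + x‖ := by congr 1; abel
          _ ≤ ‖-(x - y)‖ + ‖x‖ := norm_add_le _ _
          _ = _ := by rw [norm_neg]
      have n2 : ‖y‖ ≤ ‖x + y‖ + ‖x‖ := by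
        calc ‖y‖ = ‖(x + y) - x‖ := by congr 1; abel
          _ ≤ ‖x + y‖ + ‖x‖ := norm_sub_le _ _
      have ha : R0 / 2 ≤ ‖x - y‖ := by linarith
      have hb : R0 / 2 ≤ ‖x + y‖ := by linarith
      have hd : |‖x - y‖ - ‖x + y‖| ≤ 2 := by
        have : |‖x + y‖ - ‖y - x‖| ≤ ‖(x + y) - (y - x)‖ := abs_norm_sub_norm_le _ _
        rw [abs_sub_comm, norm_sub_rev x y]
        refine this.trans ?_
        have e : (x + y) - (y - x) = x + x := by abel
        rw [e]
        refine (norm_add_le _ _).trans ?_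
        linarith
      have hg := gk_sub k hk (R0 / 2) _ _ hm ha hb
      have hpi := Real.pi_gt_three
      rw [norm_mul, norm_mul, norm_mul]
      have e1 : ‖(1 / 2 : ℂ)‖ = 1 / 2 := by simp
      rw [e1]
      have hp0 : 0 ≤ p := (norm_nonneg _).trans (hp y hy)
      have hg2 : ‖gk k ‖x - y‖ - gk k ‖x + y‖‖ ≤ 2 * (‖k‖ / R0 + 1 / R0 ^ 2) := by
        refine hg.trans ?_
        calc (‖k‖ / (R0 / 2) + 1 / (R0 / 2) ^ 2) / (4 * Real.pi) * |‖x - y‖ - ‖x + y‖|
            ≤ (‖k‖ / (R0 / 2) + 1 / (R0 / 2) ^ 2) / (4 * 1) * 2 := by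
              gcongr
              linarith
          _ = ‖k‖ / R0 + 2 * (1 / R0 ^ 2) := by
              field_simp
              ring
          _ ≤ 2 * (‖k‖ / R0 + 1 / R0 ^ 2) := by
              have : 0 ≤ ‖k‖ / R0 := by positivity
              linarith
      calc 1 / 2 * (‖gk k ‖x - y‖ - gk k ‖x + y‖‖ * (‖W y‖ * ‖ev u y‖))
          ≤ 1 / 2 * ((2 * (‖k‖ / R0 + 1 / R0 ^ 2)) * (‖W y‖ * p)) := by
            gcongr
            exact hp y hy
        _ = _ := by ring
  calc ‖∫ y, (1 / 2 : ℂ) * ((gk k ‖x - y‖ - gk k ‖x + y‖) * (W y * ev u y))‖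
      ≤ ∫ y, (‖k‖ / R0 + 1 / R0 ^ 2) * p * ‖W y‖ :=
        norm_integral_le_of_norm_le (hW.int.norm.const_mul _) (Filter.Eventually.of_forall hle)
    _ = (‖k‖ / R0 + 1 / R0 ^ 2) * p * ∫ y, ‖W y‖ := integral_const_mul _ _
    _ = _ := by ring

theorem T_outer (k : ℂ) (hk : 0 ≤ k.im) (R0 : ℝ) (W : E3 → ℂ) (hW : Pot W)
    (hW1 : ∀ x, ‖x‖ < R0 → W x = 0) (M : ℝ) (hM : ∀ x, ‖W x‖ ≤ M) (u : S) (p : ℝ)
    (hp0 : 0 ≤ p) (hp : ∀ x, R0 ≤ ‖x‖ → ‖ev u x‖ ≤ p) (x : E3) (R : ℝ) (hR : 0 < R) :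
    ‖ev (T k W u) x‖ ≤ (R ^ 2 * M + (∫ y, ‖W y‖) / R) * p := by
  have hM0 : 0 ≤ M := (norm_nonneg _).trans (hM 0)
  rw [T_spec k hk W hW]
  have hle : ∀ y, ‖W y * ev u y‖ ≤ p * ‖W y‖ := by
    intro y
    by_cases hy : ‖y‖ < R0
    · rw [hW1 y hy]; simp
    · push Not at hy
      rw [norm_mul, mul_comm]
      gcongr
      exact hp y hy
  have h := (ker_int k hk (fun y => W y * ev u y) (hW.mul_ev u).1 (p * M)
      (fun y => (hle y).trans (by gcongr; exact hM y)) (hW.mul_ev u).2.1 x).2 R hR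
  refine h.trans ?_
  have hI : ∫ y, ‖W y * ev u y‖ ≤ p * ∫ y, ‖W y‖ := by
    rw [← integral_const_mul]
    exact integral_mono_of_nonneg (Filter.Eventually.of_forall fun _ => norm_nonneg _)
      (hW.int.norm.const_mul _) (Filter.Eventually.of_forall hle)
  have hI0 : 0 ≤ ∫ y, ‖W y‖ := integral_nonneg (fun _ => norm_nonneg _)
  have hpi := Real.pi_gt_three
  have hpi0 := Real.pi_pos
  calc (4 * Real.pi)⁻¹ * (2 * Real.pi * R ^ 2 * (p * M) + (∫ y, ‖W y * ev u y‖) / R)
      ≤ (4 * Real.pi)⁻¹ * (2 * Real.pi * R ^ 2 * (p * M) + (p * ∫ y, ‖W y‖) / R) := by gcongr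
    _ = (1 / 2) * (R ^ 2 * M * p) + (4 * Real.pi)⁻¹ * ((∫ y, ‖W y‖) / R * p) := by
        field_simp
        ring
    _ ≤ 1 * (R ^ 2 * M * p) + 1 * ((∫ y, ‖W y‖) / R * p) := by
        have h4 : (4 * Real.pi)⁻¹ ≤ 1 := inv_le_one_of_one_le₀ (by linarith)
        gcongr
        norm_num
    _ = _ := by ring

/-- cut off to the unit ball -/
theorem cut_exists (u : S) : ∃ w : S, ∀ x, ev w x = if ‖x‖ < 1 then ev u x else 0 := by
  apply exists_ev _ _ ‖u‖
  · intro x
    split_ifs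
    · exact ev_le u x
    · simp
  · refine ⟨?_, ?_, ?_⟩
    · exact Measurable.ite (measurableSet_lt measurable_norm measurable_const)
        (meas_ev u) measurable_const
    · intro x
      rw [norm_neg, (cls_ev u).neg]
      split_ifs <;> simp
    · intro x
      rw [LinearIsometryEquiv.norm_map, (cls_ev u).refl]

theorem pot_ball (g : E3 → ℂ) (hg : Measurable g) (C : ℝ) (hC : ∀ x, ‖x‖ < 1 → ‖g x‖ ≤ C)
    (hn : ∀ x, g (-x) = g x) (hr : ∀ x, g (rf 2 x) = g x) :
    Pot (fun x => if ‖x‖ < 1 then g x else 0) := by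
  have hm : Measurable (fun x : E3 => if ‖x‖ < 1 then g x else 0) :=
    Measurable.ite (measurableSet_lt measurable_norm measurable_const) hg measurable_const
  have hC0 : 0 ≤ C := (norm_nonneg _).trans (hC 0 (by simp))
  refine ⟨hm, ⟨C, fun x => ?_⟩, ?_, ?_, ?_⟩
  · split_ifs with h
    · exact hC x h
    · simpa using hC0
  · have h1 : IntegrableOn (fun x : E3 => if ‖x‖ < 1 then g x else 0)
        (Metric.ball (0 : E3) 1) volume := by
      apply Measure.integrableOn_of_bounded (M := C)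
      · exact (measure_ball_lt_top).ne
      · exact hm.aestronglyMeasurable
      · refine Filter.Eventually.of_forall fun x => ?_
        split_ifs with h
        · exact hC x h
        · simpa using hC0
    refine (h1.integrable_indicator measurableSet_ball).congr
      (Filter.Eventually.of_forall fun x => ?_)
    by_cases hx : x ∈ Metric.ball (0 : E3) 1
    · rw [Set.indicator_of_mem hx]
    · rw [Set.indicator_of_notMem hx]
      rw [mem_ball_zero_iff] at hx
      simp only [if_neg hx]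
  · intro x
    simp only [norm_neg, hn]
  · intro x
    simp only [LinearIsometryEquiv.norm_map, hr]

theorem pot_vv (f : E3 → ℝ) (f1 f2 : ℝ) (hf : Measurable f) (hf1 : 0 < f1)
    (hf12 : ∀ x, f1 ≤ f x ∧ f x ≤ f2) (hfi : ∀ (L : E3 ≃ₗᵢ[ℝ] E3) x, f (L x) = f x) :
    Pot (vv f) := by
  have h := pot_ball (fun x => ((- 1 / f x : ℝ) : ℂ))
    (Complex.measurable_ofReal.comp (measurable_const.div hf)) (1 / f1) ?_ ?_ ?_
  · exact h
  · intro x _
    simp only [Complex.norm_real, Real.norm_eq_abs]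
    rw [abs_div, abs_neg, abs_one, abs_of_pos (hf1.trans_le (hf12 x).1)]
    exact one_div_le_one_div_of_le hf1 (hf12 x).1
  · intro x
    have := hfi (LinearIsometryEquiv.neg ℝ) x
    simp only [LinearIsometryEquiv.coe_neg] at this
    simp only [this]
  · intro x
    simp only [hfi]

theorem pot_Q : Pot Q := by
  have h := pot_ball (fun x => zp x ^ 2) ?_ 4 ?_ ?_ ?_
  · exact h
  · unfold zp
    apply Measurable.pow_const
    exact (Complex.measurable_ofReal.comp (by fun_prop)).add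
      (measurable_const.mul (Complex.measurable_ofReal.comp (by fun_prop)))
  · intro x hx
    have h0 : ‖x 0‖ ≤ 1 := (PiLp.norm_apply_le x 0).trans hx.le
    have h1 : ‖x 1‖ ≤ 1 := (PiLp.norm_apply_le x 1).trans hx.le
    have h2 : ‖zp x‖ ≤ 2 := by
      unfold zp
      refine (norm_add_le _ _).trans ?_
      rw [norm_mul, Complex.norm_I, Complex.norm_real, Complex.norm_real, one_mul]
      linarith
    simp only [norm_pow]
    nlinarith [norm_nonneg (zp x)]
  · intro x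
    have : zp (-x) = - zp x := by
      unfold zp
      simp only [PiLp.neg_apply, Complex.ofReal_neg]
      ring
    simp only [this]
    ring
  · intro x
    have : zp (rf 2 x) = zp x := by
      unfold zp
      rw [rf_apply, rf_apply]
      simp
    simp only [this]

end Pool.Agent.Helper78.CE
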