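import Pool.Agent.Helper16.CE.Top
import Pool.Agent.Helper78.CE.K2

set_option autoImplicit false

namespace Pool.Agent.Helper78.CE
open MeasureTheory Pool.Agent.Helper16.CE
open scoped ENNReal

/-- the derivative of `gk k r` in `k` -/
noncomputable def dker (k : ℂ) (r : ℝ) : ℂ :=
  Complex.I * Complex.exp (Complex.I * k * r) / (4 * Real.pi : ℝ)

theorem dker_norm (k : ℂ) (hk : 0 ≤ k.im) (r : ℝ) (hr : 0 ≤ r) : ‖dker k r‖ ≤ (4 * Real.pi)⁻¹ := by
  unfold dker
  rw [norm_div, norm_mul, Complex.norm_I, one_mul, Complex.norm_real,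
    Real.norm_of_nonneg (by positivity)]
  calc ‖Complex.exp (Complex.I * k * r)‖ / (4 * Real.pi) ≤ 1 / (4 * Real.pi) := by
        gcongr
        exact norm_exp_r k hk r hr
    _ = _ := by rw [one_div]

theorem dker_meas (k : ℂ) : Measurable (dker k) := by
  unfold dker
  exact (Continuous.measurable (by fun_prop))

theorem dker_int (k : ℂ) (hk : 0 ≤ k.im) (g : E3 → ℂ) (hm : Measurable g)
    (hi : Integrable g volume) (x : E3) :
    Integrable (fun y => dker k ‖x - y‖ * g y) volume := by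
  have hme : AEStronglyMeasurable (fun y => dker k ‖x - y‖ * g y) volume := by
    apply Measurable.aestronglyMeasurable
    exact ((dker_meas k).comp (measurable_const.sub measurable_id).norm).mul hm
  refine (hi.norm.const_mul (4 * Real.pi)⁻¹).mono' hme (Filter.Eventually.of_forall fun y => ?_)
  rw [norm_mul]
  gcongr
  exact dker_norm k hk _ (norm_nonneg _)

theorem ev_int_le {V : E3 → ℂ} (hV : Pot V) (u : S) :
    ∫ y, ‖V y * ev u y‖ ≤ (∫ y, ‖V y‖) * ‖u‖ := by
  rw [mul_comm, ← integral_const_mul]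
  exact integral_mono_of_nonneg (Filter.Eventually.of_forall fun _ => norm_nonneg _)
    (hV.int.norm.const_mul _) (Filter.Eventually.of_forall (hV.mul_ev u).2.2)

theorem dT_exists (k : ℂ) (hk : 0 ≤ k.im) (V : E3 → ℂ) (hV : Pot V) :
    ∃ L : S →L[ℂ] S, ∀ (u : S) (x : E3),
    ev (L u) x = ∫ y, dker k ‖x - y‖ * (V y * ev u y) := by
  have hI : 0 ≤ ∫ y, ‖V y‖ := integral_nonneg (fun _ => norm_nonneg _)
  have key := fun u : S => fun x : E3 =>
    dker_int k hk (fun y => V y * ev u y) (hV.mul_ev u).1 (hV.mul_ev u).2.1 x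
  refine (exists_op (fun u x => ∫ y, dker k ‖x - y‖ * (V y * ev u y))
    ((4 * Real.pi)⁻¹ * (∫ y, ‖V y‖)) (by positivity) ?_ ?_ ?_ ?_).imp fun L hL => hL.1
  · intro u
    refine ⟨?_, ?_, ?_⟩
    · have h : Measurable (Function.uncurry fun x y : E3 =>
          dker k ‖x - y‖ * (V y * ev u y)) := by
        apply Measurable.mul
        · exact (dker_meas k).comp (measurable_fst.sub measurable_snd).norm
        · exact (hV.mul_ev u).1.comp measurable_snd
      exact (h.stronglyMeasurable.integral_prod_right).measurable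
    · intro x
      rw [← integral_neg_E3, ← integral_neg]
      refine integral_congr_ae (Filter.Eventually.of_forall fun y => ?_)
      simp only
      rw [hV.neg, (cls_ev u).neg]
      have : ‖-x - -y‖ = ‖x - y‖ := by rw [← norm_neg]; congr 1; abel
      rw [this]; ring
    · intro x
      rw [← integral_iso (rf 2)]
      refine integral_congr_ae (Filter.Eventually.of_forall fun y => ?_)
      simp only
      rw [hV.refl, (cls_ev u).refl, ← map_sub, LinearIsometryEquiv.norm_map]
  · intro u x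
    calc ‖∫ y, dker k ‖x - y‖ * (V y * ev u y)‖ ≤ ∫ y, (4 * Real.pi)⁻¹ * ‖V y * ev u y‖ := by
          refine norm_integral_le_of_norm_le ((hV.mul_ev u).2.1.norm.const_mul _)
            (Filter.Eventually.of_forall fun y => ?_)
          rw [norm_mul]
          gcongr
          exact dker_norm k hk _ (norm_nonneg _)
      _ = (4 * Real.pi)⁻¹ * ∫ y, ‖V y * ev u y‖ := integral_const_mul _ _
      _ ≤ (4 * Real.pi)⁻¹ * ((∫ y, ‖V y‖) * ‖u‖) := by
          gcongr
          exact ev_int_le hV u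
      _ = _ := by ring
  · intro u v x
    rw [← integral_add (key u x) (key v x)]
    refine integral_congr_ae (Filter.Eventually.of_forall fun y => ?_)
    simp only [ev_add]; ring
  · intro c u x
    rw [← integral_const_mul]
    refine integral_congr_ae (Filter.Eventually.of_forall fun y => ?_)
    simp only [ev_smul]; ring

theorem T_int {V : E3 → ℂ} (hV : Pot V) (k : ℂ) (hk : 0 ≤ k.im) (u : S) (x : E3) :
    Integrable (fun y => gk k ‖x - y‖ * (V y * ev u y)) volume := by
  obtain ⟨M, hM⟩ := hV.bdd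
  exact (ker_int k hk (fun y => V y * ev u y) (hV.mul_ev u).1 (‖u‖ * M)
      (fun y => ((hV.mul_ev u).2.2 y).trans (by gcongr; exact hM y)) (hV.mul_ev u).2.1 x).1

theorem ae_ne (x : E3) : ∀ᵐ y : E3, 0 < ‖x - y‖ := by
  have h : ∀ᵐ y : E3, y ≠ x := by
    rw [ae_iff]
    simp
  filter_upwards [h] with y hy
  exact norm_pos_iff.2 (sub_ne_zero.2 (Ne.symm hy))

theorem T_rem (k : ℂ) (hk : 0 < k.im) (V : E3 → ℂ) (hV : Pot V) (L : S →L[ℂ] S)
    (hL : ∀ (u : S) (x : E3), ev (L u) x = ∫ y, dker k ‖x - y‖ * (V y * ev u y))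
    (h : ℂ) (hh : ‖h‖ ≤ k.im / 2) :
    ‖T (k + h) V - T k V - h • L‖ ≤ (∫ y, ‖V y‖) / (8 * Real.pi * k.im) * ‖h‖ ^ 2 := by
  have hI : 0 ≤ ∫ y, ‖V y‖ := integral_nonneg (fun _ => norm_nonneg _)
  have hkh : 0 ≤ (k + h).im := by
    have h1 := Complex.abs_im_le_norm h
    rw [Complex.add_im]
    have h2 := neg_abs_le h.im
    linarith
  refine opNorm_le_ev _ _ (by positivity) fun u x => ?_
  have e : ev ((T (k + h) V - T k V - h • L) u) x =
      ∫ y, (gk (k + h) ‖x - y‖ - gk k ‖x - y‖ - h * dker k ‖x - y‖) * (V y * ev u y) := by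
    have e1 : (T (k + h) V - T k V - h • L) u = T (k + h) V u - T k V u - h • L u := rfl
    have e2 : ∫ y, (gk (k + h) ‖x - y‖ * (V y * ev u y) - gk k ‖x - y‖ * (V y * ev u y) -
        h * (dker k ‖x - y‖ * (V y * ev u y))) = (∫ y, (gk (k + h) ‖x - y‖ * (V y * ev u y) -
          gk k ‖x - y‖ * (V y * ev u y))) - ∫ y, h * (dker k ‖x - y‖ * (V y * ev u y)) :=
      integral_sub ((T_int hV _ hkh u x).sub (T_int hV _ hk.le u x))
        ((dker_int k hk.le _ (hV.mul_ev u).1 (hV.mul_ev u).2.1 x).const_mul h)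
    rw [e1, ev_sub, ev_sub, ev_smul, T_spec _ hkh V hV, T_spec _ hk.le V hV, hL,
      ← integral_const_mul, ← integral_sub (T_int hV _ hkh u x) (T_int hV _ hk.le u x), ← e2]
    refine integral_congr_ae (Filter.Eventually.of_forall fun y => ?_)
    simp only
    ring
  rw [e]
  calc ‖∫ y, (gk (k + h) ‖x - y‖ - gk k ‖x - y‖ - h * dker k ‖x - y‖) * (V y * ev u y)‖
      ≤ ∫ y, (‖h‖ ^ 2 / (8 * Real.pi * k.im)) * ‖V y * ev u y‖ := by
        refine norm_integral_le_of_norm_le ((hV.mul_ev u).2.1.norm.const_mul _) ?_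
        filter_upwards [ae_ne x] with y hy
        rw [norm_mul]
        gcongr
        exact gk_deriv k h hk hh _ hy
    _ = (‖h‖ ^ 2 / (8 * Real.pi * k.im)) * ∫ y, ‖V y * ev u y‖ := integral_const_mul _ _
    _ ≤ (‖h‖ ^ 2 / (8 * Real.pi * k.im)) * ((∫ y, ‖V y‖) * ‖u‖) := by
        gcongr
        exact ev_int_le hV u
    _ = _ := by ring

theorem T_diff (V : E3 → ℂ) (hV : Pot V) (k : ℂ) (hk : 0 < k.im) :
    DifferentiableAt ℂ (fun k => T k V) k := by
  obtain ⟨L, hL⟩ := dT_exists k hk.le V hV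
  have hI : 0 ≤ ∫ y, ‖V y‖ := integral_nonneg (fun _ => norm_nonneg _)
  have hd : @HasDerivAt ℂ _ (S →L[ℂ] S) NormedAddCommGroup.toAddCommGroup NormedSpace.toModule
      _ _ (fun k => T k V) L k := by
    rw [hasDerivAt_iff_isLittleO_nhds_zero]
    have h1 : (fun h : ℂ => T (k + h) V - T k V - h • L) =O[nhds 0] fun h => ‖h‖ ^ 2 := by
      apply Asymptotics.IsBigO.of_bound ((∫ y, ‖V y‖) / (8 * Real.pi * k.im))
      have : Metric.ball (0 : ℂ) (k.im / 2) ∈ nhds (0 : ℂ) := Metric.ball_mem_nhds _ (by positivity)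
      filter_upwards [this] with h hh
      rw [mem_ball_zero_iff] at hh
      have := T_rem k hk V hV L hL h hh.le
      rw [norm_pow, norm_norm]
      exact this
    refine h1.trans_isLittleO ?_
    have h2 := Asymptotics.isLittleO_norm_pow_id (E' := ℂ) one_lt_two
    exact h2
  exact hd.differentiableAt

end Pool.Agent.Helper78.CE
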