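import Pool.Agent.Helper78.CE.K2

set_option autoImplicit false

namespace Pool.Agent.Helper78.CE
open MeasureTheory Pool.Agent.Helper16.CE
open scoped ENNReal

/-! ## Part Dip: the far field of the dipole -/

theorem ball_comp {F : Type} [NormedAddCommGroup F] [NormedSpace ℝ F] (L : E3 ≃ₗᵢ[ℝ] E3)
    (f : E3 → F) :
    ∫ y in Metric.ball (0 : E3) 1, f (L y) = ∫ y in Metric.ball (0 : E3) 1, f y := by
  have h1 := L.measurePreserving.setIntegral_preimage_emb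
    L.toHomeomorph.measurableEmbedding f (Metric.ball (0 : E3) 1)
  have h2 : (L : E3 → E3) ⁻¹' Metric.ball (0 : E3) 1 = Metric.ball (0 : E3) 1 := by
    ext y
    simp
  rw [h2] at h1
  exact h1

theorem ball_int {F : Type} [NormedAddCommGroup F] [NormedSpace ℝ F] (f : E3 → F)
    (hf : ContinuousOn f (Metric.closedBall (0 : E3) 1)) :
    IntegrableOn f (Metric.ball (0 : E3) 1) volume :=
  (hf.integrableOn_compact (isCompact_closedBall _ _)).mono_set Metric.ball_subset_closedBall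

theorem second_moment : ∃ m2 : ℝ, 0 < m2 ∧ ∀ i j : Fin 3,
    ∫ y in Metric.ball (0 : E3) 1, y i * y j = if i = j then m2 else 0 := by
  refine ⟨∫ y in Metric.ball (0 : E3) 1, y 0 * y 0, ?_, ?_⟩
  · rw [integral_pos_iff_support_of_nonneg]
    · rw [Measure.restrict_apply' Metric.isOpen_ball.measurableSet]
      have hopen : IsOpen ({y : E3 | y 0 ≠ 0} ∩ Metric.ball (0 : E3) 1) := by
        refine IsOpen.inter ?_ Metric.isOpen_ball
        exact isOpen_ne_fun (by fun_prop) continuous_const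
      have hsup : Function.support (fun y : E3 => y 0 * y 0) = {y : E3 | y 0 ≠ 0} := by
        ext y
        simp
      rw [hsup]
      refine hopen.measure_pos volume ⟨EuclideanSpace.single 0 (1 / 2 : ℝ), ?_, ?_⟩
      · simp
      · rw [mem_ball_zero_iff, EuclideanSpace.norm_single]
        norm_num
    · intro y
      exact mul_self_nonneg _
    · exact ball_int _ (by fun_prop)
  · intro i j
    split_ifs with hij
    · subst hij
      let L : E3 ≃ₗᵢ[ℝ] E3 := LinearIsometryEquiv.piLpCongrLeft 2 ℝ ℝ (Equiv.swap 0 i)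
      have h1 := ball_comp L (fun y : E3 => y i * y i)
      rw [← h1]
      refine setIntegral_congr_fun Metric.isOpen_ball.measurableSet fun y _ => ?_
      have h2 : (L y) i = y 0 := by
        simp [L]
      simp only [h2]
    · have h1 := ball_comp (rf j) (fun y : E3 => y i * y j)
      have h2 : ∀ y : E3, (rf j y) i * (rf j y) j = -(y i * y j) := by
        intro y
        rw [rf_apply, rf_apply, if_neg hij, if_pos rfl]
        ring
      simp only [h2, integral_neg] at h1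
      linarith

theorem coord_le (y : E3) (j : Fin 3) : |y j| ≤ ‖y‖ := by
  have := EuclideanSpace.norm_eq y
  rw [this]
  apply Real.le_sqrt_of_sq_le
  rw [← Real.norm_eq_abs]
  exact Finset.single_le_sum (f := fun i => ‖y i‖ ^ 2) (fun _ _ => by positivity)
    (Finset.mem_univ j)

theorem gk_cont (k : ℂ) : ContinuousOn (gk k) (Set.Ioi 0) := by
  unfold gk
  refine ContinuousOn.div (by fun_prop) (by fun_prop) ?_
  intro r hr
  have hr' : r ≠ 0 := (Set.mem_Ioi.1 hr).ne'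
  have := Real.pi_ne_zero
  exact_mod_cast (by positivity : (4 * Real.pi * r) ≠ 0)

theorem gk_cont_ball (k : ℂ) (z : E3) (hz : 2 ≤ ‖z‖) (j : Fin 3) (L : E3 → E3)
    (hL : Continuous L) (hLn : ∀ y, ‖L y‖ = ‖y‖) :
    ContinuousOn (fun y : E3 => gk k ‖z - L y‖ * (y j : ℂ)) (Metric.closedBall (0 : E3) 1) := by
  refine ContinuousOn.mul ?_ (by fun_prop)
  refine (gk_cont k).comp (f := fun y : E3 => ‖z - L y‖) (by fun_prop) ?_
  intro y hy
  have h1 : ‖y‖ ≤ 1 := by simpa using hy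
  have h2 := norm_sub_norm_le z (L y)
  rw [hLn] at h2
  exact Set.mem_Ioi.2 (by linarith)

theorem dipole : ∃ m2 C : ℝ, 0 < m2 ∧ 0 < C ∧ ∀ (j : Fin 3) (k : ℂ) (z : E3),
    0 ≤ k.im → ‖k‖ ≤ 1 → 2 ≤ ‖z‖ →
    ‖(∫ y in Metric.ball (0 : E3) 1, gk k ‖z - y‖ * (y j : ℂ)) -
        m2 * Dk k ‖z‖ * ((z j / ‖z‖ : ℝ) : ℂ)‖ ≤
      C * (‖k‖ + 1 / ‖z‖) * (‖k‖ / ‖z‖ + 1 / ‖z‖ ^ 2) ∧
    ‖∫ y in Metric.ball (0 : E3) 1, gk k ‖z - y‖ * (y j : ℂ)‖ ≤
      C * (‖k‖ / ‖z‖ + 1 / ‖z‖ ^ 2) := by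
  obtain ⟨m2, hm2, hmom⟩ := second_moment
  obtain ⟨C0, hC0, hdip⟩ := gk_dipole
  set vol : ℝ := (volume (Metric.ball (0 : E3) 1)).toReal with hvol
  have hvol0 : 0 ≤ vol := ENNReal.toReal_nonneg
  have hpi := Real.pi_pos
  have hpi3 := Real.pi_gt_three
  refine ⟨m2, (C0 + 1) * (vol + 1), hm2, by positivity, fun j k z hk hk1 hz => ?_⟩
  have hz0 : 0 < ‖z‖ := by linarith
  have hball : MeasurableSet (Metric.ball (0 : E3) 1) := Metric.isOpen_ball.measurableSet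
  have hfin : volume (Metric.ball (0 : E3) 1) ≠ ⊤ := measure_ball_lt_top.ne
  have i1 : IntegrableOn (fun y : E3 => gk k ‖z - y‖ * (y j : ℂ)) (Metric.ball (0 : E3) 1) :=
    ball_int _ (gk_cont_ball k z hz j (fun y => y) continuous_id (fun _ => rfl))
  have i2 : IntegrableOn (fun y : E3 => gk k ‖z + y‖ * (y j : ℂ)) (Metric.ball (0 : E3) 1) := by
    have := ball_int _ (gk_cont_ball k z hz j (fun y => -y) continuous_neg (fun _ => norm_neg _))
    simpa only [sub_neg_eq_add] using this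
  -- reflection
  have hneg : ∫ y in Metric.ball (0 : E3) 1, gk k ‖z + y‖ * (y j : ℂ) =
      -∫ y in Metric.ball (0 : E3) 1, gk k ‖z - y‖ * (y j : ℂ) := by
    have h1 := ball_comp (LinearIsometryEquiv.neg ℝ) (fun y : E3 => gk k ‖z - y‖ * (y j : ℂ))
    rw [← h1, ← integral_neg]
    refine setIntegral_congr_fun hball fun y _ => ?_
    simp
  have hI : ∫ y in Metric.ball (0 : E3) 1, gk k ‖z - y‖ * (y j : ℂ) =
      (1 / 2) * ∫ y in Metric.ball (0 : E3) 1, (gk k ‖z - y‖ - gk k ‖z + y‖) * (y j : ℂ) := by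
    have h1 : ∫ y in Metric.ball (0 : E3) 1, (gk k ‖z - y‖ - gk k ‖z + y‖) * (y j : ℂ) =
        (∫ y in Metric.ball (0 : E3) 1, gk k ‖z - y‖ * (y j : ℂ)) -
          ∫ y in Metric.ball (0 : E3) 1, gk k ‖z + y‖ * (y j : ℂ) := by
      rw [← integral_sub i1 i2]
      refine setIntegral_congr_fun hball fun y _ => ?_
      simp only
      ring
    rw [h1, hneg]
    ring
  have i3 : IntegrableOn (fun y : E3 => (gk k ‖z - y‖ - gk k ‖z + y‖) * (y j : ℂ))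
      (Metric.ball (0 : E3) 1) := by
    refine (i1.sub i2).congr_fun (fun y _ => ?_) hball
    simp only [Pi.sub_apply]
    ring
  -- the leading term
  have hlead : ∫ y in Metric.ball (0 : E3) 1,
      (2 * Dk k ‖z‖ * ((inner ℝ z y / ‖z‖ : ℝ) : ℂ)) * (y j : ℂ) =
      2 * (m2 * Dk k ‖z‖ * ((z j / ‖z‖ : ℝ) : ℂ)) := by
    have h1 : ∀ y : E3, (2 * Dk k ‖z‖ * ((inner ℝ z y / ‖z‖ : ℝ) : ℂ)) * (y j : ℂ) =
        (2 * Dk k ‖z‖ / (‖z‖ : ℂ)) * ((∑ i, z i * (y i * y j) : ℝ) : ℂ) := by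
      intro y
      have h2 : inner ℝ z y = ∑ i, z i * y i := by
        rw [PiLp.inner_apply]
        refine Finset.sum_congr rfl fun i _ => ?_
        simp [mul_comm]
      rw [h2]
      push_cast
      rw [Finset.sum_div, Finset.mul_sum, Finset.mul_sum, Finset.sum_mul]
      refine Finset.sum_congr rfl fun i _ => ?_
      ring
    simp only [h1]
    rw [integral_const_mul, integral_complex_ofReal]
    rw [integral_finset_sum _ (fun i _ => ball_int _ (by fun_prop))]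
    have h3 : ∀ i : Fin 3, ∫ y in Metric.ball (0 : E3) 1, z i * (y i * y j) =
        z i * (if i = j then m2 else 0) := by
      intro i
      rw [integral_const_mul, hmom i j]
    rw [Finset.sum_congr rfl fun i _ => h3 i]
    simp only [mul_ite, mul_zero, Finset.sum_ite_eq', Finset.mem_univ, if_true]
    push_cast
    ring
  have i4 : IntegrableOn (fun y : E3 =>
      (2 * Dk k ‖z‖ * ((inner ℝ z y / ‖z‖ : ℝ) : ℂ)) * (y j : ℂ)) (Metric.ball (0 : E3) 1) :=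
    ball_int _ (by fun_prop)
  constructor
  · have h1 : (∫ y in Metric.ball (0 : E3) 1, gk k ‖z - y‖ * (y j : ℂ)) -
        m2 * Dk k ‖z‖ * ((z j / ‖z‖ : ℝ) : ℂ) =
        (1 / 2) * ∫ y in Metric.ball (0 : E3) 1, ((gk k ‖z - y‖ - gk k ‖z + y‖) -
          2 * Dk k ‖z‖ * ((inner ℝ z y / ‖z‖ : ℝ) : ℂ)) * (y j : ℂ) := by
      have h2 : ∫ y in Metric.ball (0 : E3) 1, ((gk k ‖z - y‖ - gk k ‖z + y‖) -
          2 * Dk k ‖z‖ * ((inner ℝ z y / ‖z‖ : ℝ) : ℂ)) * (y j : ℂ) =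
          (∫ y in Metric.ball (0 : E3) 1, (gk k ‖z - y‖ - gk k ‖z + y‖) * (y j : ℂ)) -
          ∫ y in Metric.ball (0 : E3) 1,
            (2 * Dk k ‖z‖ * ((inner ℝ z y / ‖z‖ : ℝ) : ℂ)) * (y j : ℂ) := by
        rw [← integral_sub i3 i4]
        refine setIntegral_congr_fun hball fun y _ => ?_
        simp only
        ring
      rw [h2, hlead, hI]
      ring
    rw [h1, norm_mul]
    have h3 : ‖∫ y in Metric.ball (0 : E3) 1, ((gk k ‖z - y‖ - gk k ‖z + y‖) -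
          2 * Dk k ‖z‖ * ((inner ℝ z y / ‖z‖ : ℝ) : ℂ)) * (y j : ℂ)‖ ≤
        (C0 * (‖k‖ + 1 / ‖z‖) * (‖k‖ / ‖z‖ + 1 / ‖z‖ ^ 2)) * vol := by
      refine norm_setIntegral_le_of_norm_le_const measure_ball_lt_top ?_
      intro y hy
      have hy1 : ‖y‖ ≤ 1 := by
        have := mem_ball_zero_iff.1 hy
        linarith
      rw [norm_mul, Complex.norm_real]
      have h4 := hdip k z y hk hk1 hz hy1
      have h5 : ‖y j‖ ≤ 1 := (coord_le y j).trans hy1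
      calc ‖gk k ‖z - y‖ - gk k ‖z + y‖ - 2 * Dk k ‖z‖ * ((inner ℝ z y / ‖z‖ : ℝ) : ℂ)‖ * ‖y j‖
          ≤ (C0 * (‖k‖ + 1 / ‖z‖) * (‖k‖ / ‖z‖ + 1 / ‖z‖ ^ 2)) * 1 :=
            mul_le_mul h4 h5 (norm_nonneg _) (by positivity)
        _ = _ := mul_one _
    have h6 : ‖(1 / 2 : ℂ)‖ ≤ 1 := by
      rw [norm_div, norm_one]
      norm_num
    have hX : 0 ≤ (‖k‖ + 1 / ‖z‖) * (‖k‖ / ‖z‖ + 1 / ‖z‖ ^ 2) := by positivity
    calc ‖(1 / 2 : ℂ)‖ * _ ≤ 1 * ((C0 * (‖k‖ + 1 / ‖z‖) * (‖k‖ / ‖z‖ + 1 / ‖z‖ ^ 2)) * vol) :=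
          mul_le_mul h6 h3 (norm_nonneg _) zero_le_one
      _ = (C0 * vol) * ((‖k‖ + 1 / ‖z‖) * (‖k‖ / ‖z‖ + 1 / ‖z‖ ^ 2)) := by ring
      _ ≤ ((C0 + 1) * (vol + 1)) * ((‖k‖ + 1 / ‖z‖) * (‖k‖ / ‖z‖ + 1 / ‖z‖ ^ 2)) := by
          refine mul_le_mul_of_nonneg_right ?_ hX
          nlinarith
      _ = _ := by ring
  · rw [hI, norm_mul]
    have h3 : ‖∫ y in Metric.ball (0 : E3) 1, (gk k ‖z - y‖ - gk k ‖z + y‖) * (y j : ℂ)‖ ≤
        (2 * (‖k‖ / ‖z‖ + 1 / ‖z‖ ^ 2)) * vol := by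
      refine norm_setIntegral_le_of_norm_le_const measure_ball_lt_top ?_
      intro y hy
      have hy1 : ‖y‖ ≤ 1 := by
        have := mem_ball_zero_iff.1 hy
        linarith
      obtain ⟨f1, f2, -, -, f5, -⟩ := dist_facts z y hz hy1
      rw [norm_mul, Complex.norm_real]
      have h4 := gk_sub k hk (‖z‖ / 2) _ _ (by linarith) f1 f2
      have h5 : ‖y j‖ ≤ 1 := (coord_le y j).trans hy1
      have h6 : (‖k‖ / (‖z‖ / 2) + 1 / (‖z‖ / 2) ^ 2) / (4 * Real.pi) * 2 ≤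
          2 * (‖k‖ / ‖z‖ + 1 / ‖z‖ ^ 2) := by
        have e1 : (‖k‖ / (‖z‖ / 2) + 1 / (‖z‖ / 2) ^ 2) = 2 * (‖k‖ / ‖z‖) + 4 * (1 / ‖z‖ ^ 2) := by
          field_simp
          ring
        rw [e1, div_mul_eq_mul_div, div_le_iff₀ (by positivity)]
        have a1 : 0 ≤ ‖k‖ / ‖z‖ := by positivity
        have a2 : 0 ≤ 1 / ‖z‖ ^ 2 := by positivity
        nlinarith [mul_nonneg a1 (by linarith : (0:ℝ) ≤ Real.pi - 3),
          mul_nonneg a2 (by linarith : (0:ℝ) ≤ Real.pi - 3)]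
      have h7 : ‖gk k ‖z - y‖ - gk k ‖z + y‖‖ ≤ 2 * (‖k‖ / ‖z‖ + 1 / ‖z‖ ^ 2) :=
        (h4.trans (mul_le_mul_of_nonneg_left f5 (by positivity))).trans h6
      calc ‖gk k ‖z - y‖ - gk k ‖z + y‖‖ * ‖y j‖ ≤ (2 * (‖k‖ / ‖z‖ + 1 / ‖z‖ ^ 2)) * 1 :=
            mul_le_mul h7 h5 (norm_nonneg _) (by positivity)
        _ = _ := mul_one _
    have h6 : ‖(1 / 2 : ℂ)‖ = 1 / 2 := by
      rw [norm_div, norm_one]
      norm_num
    have hX : 0 ≤ ‖k‖ / ‖z‖ + 1 / ‖z‖ ^ 2 := by positivity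
    rw [h6]
    calc (1 / 2 : ℝ) * _ ≤ 1 / 2 * ((2 * (‖k‖ / ‖z‖ + 1 / ‖z‖ ^ 2)) * vol) :=
          mul_le_mul_of_nonneg_left h3 (by norm_num)
      _ = vol * (‖k‖ / ‖z‖ + 1 / ‖z‖ ^ 2) := by ring
      _ ≤ ((C0 + 1) * (vol + 1)) * (‖k‖ / ‖z‖ + 1 / ‖z‖ ^ 2) := by
          refine mul_le_mul_of_nonneg_right ?_ hX
          nlinarith

end Pool.Agent.Helper78.CE
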