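import Pool.Agent.Helper16.CE.Defs

set_option autoImplicit false

namespace Pool.Agent.Helper78.CE
open MeasureTheory Pool.Agent.Helper16.CE
open scoped ENNReal

/-! ## Part MV: mean value property -/

theorem rot_const (φ : ℂ → ℂ) (r : ℝ) (hφ : DifferentiableOn ℂ φ (Metric.ball 0 r))
    (hrot : ∀ θ : ℝ, ∀ c ∈ Metric.ball (0 : ℂ) r, φ (Complex.exp (Complex.I * θ) * c) = φ c)
    (c : ℂ) (hc : c ∈ Metric.ball (0 : ℂ) r) : φ c = φ 0 := by
  rcases eq_or_ne c 0 with rfl | hc0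
  · rfl
  have hR : 0 < ‖c‖ := norm_pos_iff.2 hc0
  have hcr : ‖c‖ < r := by simpa using hc
  have hsub : Metric.closedBall (0 : ℂ) ‖c‖ ⊆ Metric.ball 0 r := Metric.closedBall_subset_ball hcr
  have hdc : DiffContOnCl ℂ φ (Metric.ball 0 ‖c‖) := by
    apply DifferentiableOn.diffContOnCl
    rw [closure_ball _ hR.ne']
    exact hφ.mono hsub
  have hcau := hdc.two_pi_i_inv_smul_circleIntegral_sub_inv_smul
    (Metric.mem_ball_self hR : (0 : ℂ) ∈ Metric.ball 0 ‖c‖)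
  have hconst : ∀ z ∈ Metric.sphere (0 : ℂ) ‖c‖, φ z = φ c := by
    intro z hz
    have hz1 : ‖z‖ = ‖c‖ := by simpa using hz
    have h1 : ‖z / c‖ = 1 := by rw [norm_div, hz1, div_self hR.ne']
    obtain ⟨θ, hθ⟩ : ∃ θ : ℝ, Complex.exp (Complex.I * θ) = z / c := by
      have := (Complex.norm_eq_one_iff (z / c)).1 h1
      obtain ⟨θ, hθ⟩ := this
      exact ⟨θ, by rw [mul_comm]; exact hθ⟩
    have h2 := hrot θ c hc
    rw [hθ, div_mul_cancel₀ _ hc0] at h2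
    exact h2
  have h3 : (∮ z in C(0, ‖c‖), (z - 0)⁻¹ • φ z) = ∮ z in C(0, ‖c‖), (z - 0)⁻¹ • φ c :=
    circleIntegral.integral_congr hR.le fun z hz => by
      show (z - 0)⁻¹ • φ z = (z - 0)⁻¹ • φ c
      rw [hconst z hz]
  rw [h3] at hcau
  rw [← hcau]
  have h4 : (∮ z in C(0, ‖c‖), (z - 0)⁻¹ • φ c) = (2 * Real.pi * Complex.I) • φ c := by
    rw [circleIntegral.integral_smul_const, circleIntegral.integral_sub_center_inv _ hR.ne']
  rw [h4, smul_smul, inv_mul_cancel₀ Complex.two_pi_I_ne_zero, one_smul]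

end Pool.Agent.Helper78.CE
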