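import Pool.Agent.Helper16.CE.Defs

set_option autoImplicit false

namespace Pool.Agent.Helper78.CE
open MeasureTheory Pool.Agent.Helper16.CE
open scoped ENNReal

/-! ## interpolation at the points with `b ^ N = 10 ^ (-N)` -/

/-- the radius of the contour -/
noncomputable def ra (N : ℕ) : ℝ := 1 - 11 / (20 * (N : ℝ))

/-- the coefficient functional -/
noncomputable def co (N : ℕ) (g : ℂ → ℂ) (n : ℕ) : ℂ :=
  (2 * Real.pi * Complex.I : ℂ)⁻¹ • ∮ z in C(0, ra N), g z * (z ^ (N - 1 - n) /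
    (z ^ N - (1 / 10 : ℂ) ^ N))

theorem ra_pos {N : ℕ} (hN : 1 ≤ N) : 9 / 20 ≤ ra N := by
  have : (1 : ℝ) ≤ N := by exact_mod_cast hN
  unfold ra
  have h : 11 / (20 * (N : ℝ)) ≤ 11 / 20 := by
    rw [div_le_div_iff₀ (by positivity) (by norm_num)]
    nlinarith
  linarith

theorem ra_lt {N : ℕ} (hN : 1 ≤ N) : ra N < 1 - 1 / (2 * (N : ℝ)) := by
  have : (1 : ℝ) ≤ N := by exact_mod_cast hN
  unfold ra
  have h : 1 / (2 * (N : ℝ)) < 11 / (20 * (N : ℝ)) := by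
    rw [div_lt_div_iff₀ (by positivity) (by positivity)]
    nlinarith
  linarith

theorem ra_lt_one {N : ℕ} (hN : 1 ≤ N) : ra N < 1 := by
  have h1 := ra_lt hN
  have : (0 : ℝ) < 1 / (2 * (N : ℝ)) := by
    have : (1 : ℝ) ≤ N := by exact_mod_cast hN
    positivity
  linarith

theorem ra_pow {N : ℕ} (hN : 1 ≤ N) : 9 / 20 ≤ ra N ^ N := by
  have h1 : (1 : ℝ) ≤ N := by exact_mod_cast hN
  have h2 : (-2 : ℝ) ≤ -(11 / (20 * (N : ℝ))) := by
    have h := ra_pos hN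
    unfold ra at h
    linarith
  have h3 := one_add_mul_le_pow h2 N
  have h4 : 1 + (N : ℝ) * -(11 / (20 * (N : ℝ))) = 9 / 20 := by
    field_simp
    norm_num
  rw [h4] at h3
  unfold ra
  rwa [sub_eq_add_neg]

theorem den_norm {N : ℕ} (hN : 1 ≤ N) {z : ℂ} (hz : z ∈ Metric.sphere (0 : ℂ) (ra N)) :
    7 / 20 ≤ ‖z ^ N - (1 / 10 : ℂ) ^ N‖ := by
  have h1 : ‖z‖ = ra N := by simpa using hz
  have h2 : ‖z ^ N‖ = ra N ^ N := by rw [norm_pow, h1]
  have h3 : ‖((1 : ℂ) / 10) ^ N‖ ≤ 1 / 10 := by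
    rw [norm_pow]
    have h4 : ‖(1 : ℂ) / 10‖ = 1 / 10 := by simp
    rw [h4]
    calc (1 / 10 : ℝ) ^ N ≤ (1 / 10) ^ 1 := pow_le_pow_of_le_one (by norm_num) (by norm_num) hN
      _ = 1 / 10 := by norm_num
  have h4 := ra_pow hN
  have h5 := norm_sub_norm_le (z ^ N) ((1 / 10 : ℂ) ^ N)
  linarith

theorem den_ne {N : ℕ} (hN : 1 ≤ N) {z : ℂ} (hz : z ∈ Metric.sphere (0 : ℂ) (ra N)) :
    z ^ N - (1 / 10 : ℂ) ^ N ≠ 0 := by
  intro h
  have := den_norm hN hz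
  rw [h, norm_zero] at this
  norm_num at this

theorem co_bound {N : ℕ} (hN : 1 ≤ N) (g : ℂ → ℂ) (n : ℕ) (B : ℝ)
    (hB : ∀ z ∈ Metric.sphere (0 : ℂ) (ra N), ‖g z‖ ≤ B) : ‖co N g n‖ ≤ 3 * B := by
  have h0 := ra_pos hN
  have h1 := ra_lt_one hN
  have hB0 : 0 ≤ B := by
    have : ((ra N : ℝ) : ℂ) ∈ Metric.sphere (0 : ℂ) (ra N) := by
      simp [abs_of_nonneg (show (0 : ℝ) ≤ ra N by linarith)]
    exact (norm_nonneg _).trans (hB _ this)
  have h2 : ∀ z ∈ Metric.sphere (0 : ℂ) (ra N), ‖g z * (z ^ (N - 1 - n) /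
      (z ^ N - (1 / 10 : ℂ) ^ N))‖ ≤ B * (1 / (7 / 20)) := by
    intro z hz
    rw [norm_mul, norm_div, norm_pow]
    have hz1 : ‖z‖ = ra N := by simpa using hz
    rw [hz1]
    refine mul_le_mul (hB z hz) ?_ (by positivity) hB0
    refine div_le_div₀ zero_le_one (pow_le_one₀ (by linarith) h1.le) (by norm_num)
      (den_norm hN hz)
  have h3 := circleIntegral.norm_two_pi_i_inv_smul_integral_le_of_norm_le_const
    (show 0 ≤ ra N by linarith) h2
  unfold co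
  refine h3.trans ?_
  nlinarith

theorem cont_int {N : ℕ} (hN : 1 ≤ N) {g : ℂ → ℂ}
    (hg : ContinuousOn g (Metric.sphere (0 : ℂ) (ra N))) (n : ℕ) :
    CircleIntegrable (fun z => g z * (z ^ (N - 1 - n) / (z ^ N - (1 / 10 : ℂ) ^ N))) 0 (ra N) := by
  have h0 := ra_pos hN
  apply ContinuousOn.circleIntegrable (by linarith)
  refine hg.mul (ContinuousOn.div (by fun_prop) (by fun_prop) ?_)
  intro z hz
  exact den_ne hN hz

theorem co_sub {N : ℕ} (hN : 1 ≤ N) {g g' : ℂ → ℂ}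
    (hg : ContinuousOn g (Metric.sphere (0 : ℂ) (ra N)))
    (hg' : ContinuousOn g' (Metric.sphere (0 : ℂ) (ra N))) (n : ℕ) :
    co N g n - co N g' n = co N (fun z => g z - g' z) n := by
  unfold co
  rw [← smul_sub, ← circleIntegral.integral_sub (cont_int hN hg n) (cont_int hN hg' n)]
  congr 1
  refine circleIntegral.integral_congr (by have := ra_pos hN; linarith) fun z _ => ?_
  ring

theorem co_interp {N : ℕ} (hN : 1 ≤ N) {g : ℂ → ℂ}
    (hg : DifferentiableOn ℂ g (Metric.ball 0 (1 - 1 / (2 * (N : ℝ))))) (b : ℂ)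
    (hb : b ^ N = (1 / 10 : ℂ) ^ N) : ∑ n : Fin N, co N g n * b ^ (n : ℕ) = g b := by
  have h0 := ra_pos hN
  have hsub : Metric.closedBall (0 : ℂ) (ra N) ⊆ Metric.ball 0 (1 - 1 / (2 * (N : ℝ))) :=
    Metric.closedBall_subset_ball (ra_lt hN)
  have hc : ContinuousOn g (Metric.sphere (0 : ℂ) (ra N)) :=
    hg.continuousOn.mono (Metric.sphere_subset_closedBall.trans hsub)
  have hbn : ‖b‖ = 1 / 10 := by
    have h1 : ‖b‖ ^ N = (1 / 10 : ℝ) ^ N := by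
      rw [← norm_pow, hb, norm_pow]
      simp
    exact (pow_left_inj₀ (norm_nonneg b) (by norm_num) (by omega)).1 h1
  have hbb : b ∈ Metric.ball (0 : ℂ) (ra N) := by
    rw [mem_ball_zero_iff, hbn]
    linarith
  have hdc : DiffContOnCl ℂ g (Metric.ball 0 (ra N)) := by
    apply DifferentiableOn.diffContOnCl
    rw [closure_ball _ (by linarith)]
    exact hg.mono hsub
  have hcau := hdc.two_pi_i_inv_smul_circleIntegral_sub_inv_smul hbb
  rw [← hcau]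
  unfold co
  have e1 : ∀ n : Fin N, (2 * Real.pi * Complex.I : ℂ)⁻¹ • (∮ z in C(0, ra N), g z *
      (z ^ (N - 1 - (n : ℕ)) / (z ^ N - (1 / 10 : ℂ) ^ N))) * b ^ (n : ℕ) =
      (2 * Real.pi * Complex.I : ℂ)⁻¹ • (∮ z in C(0, ra N), b ^ (n : ℕ) * (g z *
      (z ^ (N - 1 - (n : ℕ)) / (z ^ N - (1 / 10 : ℂ) ^ N)))) := by
    intro n
    rw [circleIntegral.integral_const_mul]
    simp only [smul_eq_mul]
    ring
  rw [Finset.sum_congr rfl fun n _ => e1 n, ← Finset.smul_sum]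
  congr 1
  rw [← circleIntegral.integral_fun_sum]
  · refine circleIntegral.integral_congr (by linarith) fun z hz => ?_
    have hzb : z - b ≠ 0 := by
      intro h
      have h1 : ‖z‖ = ra N := by simpa using hz
      rw [sub_eq_zero.1 h, hbn] at h1
      linarith
    have hden := den_ne hN hz
    have hgeo := geom_sum₂_mul b z N
    have e2 : ∑ n : Fin N, b ^ (n : ℕ) * z ^ (N - 1 - (n : ℕ)) =
        (z ^ N - b ^ N) / (z - b) := by
      rw [Fin.sum_univ_eq_sum_range (fun n => b ^ n * z ^ (N - 1 - n)), eq_div_iff hzb]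
      linear_combination -hgeo
    calc ∑ n : Fin N, b ^ (n : ℕ) * (g z * (z ^ (N - 1 - (n : ℕ)) / (z ^ N - (1 / 10 : ℂ) ^ N)))
        = (∑ n : Fin N, b ^ (n : ℕ) * z ^ (N - 1 - (n : ℕ))) * (g z / (z ^ N - (1 / 10 : ℂ) ^ N)) := by
          rw [Finset.sum_mul]
          refine Finset.sum_congr rfl fun n _ => ?_
          ring
      _ = (z - b)⁻¹ • g z := by
          rw [e2, hb, smul_eq_mul]
          field_simp
  · intro n _
    have := cont_int hN hc (n : ℕ)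
    exact this.const_mul _

theorem interp_fix (N : ℕ) (hN : 1 ≤ N) (R M L : ℝ) (hR : 0 ≤ R)
    (Ξ : (Fin N → ℂ) → ℂ → ℂ)
    (hd : ∀ h, ‖h‖ ≤ R → DifferentiableOn ℂ (Ξ h) (Metric.ball 0 (1 - 1 / (2 * (N : ℝ)))))
    (hM : ∀ b ∈ Metric.ball (0 : ℂ) (1 - 1 / (2 * (N : ℝ))), ‖Ξ 0 b‖ ≤ M)
    (hL : ∀ h h', ‖h‖ ≤ R → ‖h'‖ ≤ R → ∀ b ∈ Metric.ball (0 : ℂ) (1 - 1 / (2 * (N : ℝ))),
      ‖Ξ h b - Ξ h' b‖ ≤ L * ‖h - h'‖)
    (hRM : 3 * M ≤ R / 2) (hL1 : 3 * L ≤ 1 / 2) :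
    ∃ h : Fin N → ℂ, ‖h‖ ≤ R ∧
      ∀ b : ℂ, b ^ N = (1 / 10 : ℂ) ^ N → ∑ n : Fin N, h n * b ^ (n : ℕ) = Ξ h b := by
  classical
  have hsub : Metric.sphere (0 : ℂ) (ra N) ⊆ Metric.ball 0 (1 - 1 / (2 * (N : ℝ))) :=
    Metric.sphere_subset_closedBall.trans (Metric.closedBall_subset_ball (ra_lt hN))
  let Φ : (Fin N → ℂ) → (Fin N → ℂ) := fun h n => co N (Ξ h) n
  have hM0 : 0 ≤ M := by
    refine (norm_nonneg _).trans (hM ((ra N : ℝ) : ℂ) (hsub ?_))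
    have := ra_pos hN
    simp [abs_of_nonneg (show (0 : ℝ) ≤ ra N by linarith)]
  have h0 : ‖(0 : Fin N → ℂ)‖ ≤ R := by rw [norm_zero]; exact hR
  have hdist : ∀ h h', ‖h‖ ≤ R → ‖h'‖ ≤ R → ‖Φ h - Φ h'‖ ≤ 1 / 2 * ‖h - h'‖ := by
    intro h h' hh hh'
    rw [pi_norm_le_iff_of_nonneg (by positivity)]
    intro n
    have hc := (hd h hh).continuousOn.mono hsub
    have hc' := (hd h' hh').continuousOn.mono hsub
    have h1 : (Φ h - Φ h') n = co N (fun z => Ξ h z - Ξ h' z) n := co_sub hN hc hc' n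
    rw [h1]
    refine (co_bound hN _ _ (L * ‖h - h'‖) fun z hz => hL h h' hh hh' z (hsub hz)).trans ?_
    have := mul_le_mul_of_nonneg_right hL1 (norm_nonneg (h - h'))
    linarith
  have hΦ0 : ‖Φ 0‖ ≤ 3 * M := by
    rw [pi_norm_le_iff_of_nonneg (by linarith)]
    intro n
    exact co_bound hN _ _ M fun z hz => hM z (hsub hz)
  have hmaps : Set.MapsTo Φ (Metric.closedBall 0 R) (Metric.closedBall 0 R) := by
    intro h hh
    rw [mem_closedBall_zero_iff] at hh ⊢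
    have h1 := hdist h 0 hh h0
    rw [sub_zero] at h1
    have h2 : ‖Φ h‖ ≤ ‖Φ h - Φ 0‖ + ‖Φ 0‖ := by
      have := norm_add_le (Φ h - Φ 0) (Φ 0)
      rwa [sub_add_cancel] at this
    linarith
  have hcontr : ContractingWith (1 / 2) (hmaps.restrict Φ _ _) := by
    refine ⟨by norm_num, LipschitzWith.of_dist_le_mul fun x y => ?_⟩
    rw [Subtype.dist_eq, Subtype.dist_eq, dist_eq_norm, dist_eq_norm]
    have h1 := hdist x.1 y.1 (mem_closedBall_zero_iff.1 x.2) (mem_closedBall_zero_iff.1 y.2)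
    simpa using h1
  obtain ⟨h, hh, hfix, -⟩ := hcontr.exists_fixedPoint'
    (Metric.isClosed_closedBall.isComplete) hmaps
    (x := 0) (Metric.mem_closedBall_self hR) (edist_ne_top _ _)
  rw [mem_closedBall_zero_iff] at hh
  refine ⟨h, hh, fun b hb => ?_⟩
  have h1 : ∀ n : Fin N, h n = co N (Ξ h) n := fun n => (congrFun hfix n).symm
  rw [← co_interp hN (hd h hh) b hb]
  exact Finset.sum_congr rfl fun n _ => by rw [← h1 n]

end Pool.Agent.Helper78.CE
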